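import Mathlib

/-!
There is no long injective lattice sequence in dimension at least two with distances comparable
to the `k`-th root of the time.
-/

namespace Q184.Rate

/-- discrete intermediate value -/
theorem ivt {a : ℕ → ℤ} {τ v : ℤ} : ∀ l : ℕ, (∀ t < l, |a (t+1) - a t| ≤ τ) → 0 ≤ τ →
    ((a 0 ≤ v ∧ v ≤ a l) ∨ (a l ≤ v ∧ v ≤ a 0)) → ∃ t ≤ l, |a t - v| ≤ τ := by
  intro l
  induction l with
  | zero =>
    intro _ hτ h
    refine ⟨0, le_rfl, ?_⟩
    have : a 0 = v := by omega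
    rw [this]; simpa using hτ
  | succ l ih =>
    intro hs hτ h
    by_cases h2 : (a 0 ≤ v ∧ v ≤ a l) ∨ (a l ≤ v ∧ v ≤ a 0)
    · obtain ⟨t, ht, h3⟩ := ih (fun t ht => hs t (by omega)) hτ h2
      exact ⟨t, by omega, h3⟩
    · refine ⟨l + 1, le_rfl, ?_⟩
      have := hs l (by omega)
      rw [abs_le] at this ⊢
      omega

/-- no injective height function on a square grid -/
theorem no_height (D : ℕ) (τ : ℤ) (hτ : 0 ≤ τ) (h : ℕ → ℕ → ℤ)
    (h1 : ∀ p q, p < D → q ≤ D → |h (p+1) q - h p q| ≤ τ)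
    (h2 : ∀ p q, p ≤ D → q < D → |h p (q+1) - h p q| ≤ τ)
    (far1 : ∀ q q', q ≤ D → q' ≤ D → τ < |h D q - h 0 q'|)
    (far2 : ∀ p p', p ≤ D → p' ≤ D → τ < |h p D - h p' 0|) : False := by
  -- the three corners
  have cA : ∀ v, v = h 0 0 → ¬ ((h D 0 ≤ v ∧ v ≤ h 0 D) ∨ (h 0 D ≤ v ∧ v ≤ h D 0)) := by
    intro v hv hb
    have : ((h D 0 ≤ v ∧ v ≤ h D D) ∨ (h D D ≤ v ∧ v ≤ h D 0)) ∨
        ((h 0 D ≤ v ∧ v ≤ h D D) ∨ (h D D ≤ v ∧ v ≤ h 0 D)) := by omega
    rcases this with h3 | h3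
    · obtain ⟨t, ht, h4⟩ := ivt (a := fun t => h D t) (v := v) D
        (fun t ht => h2 D t le_rfl ht) hτ h3
      have := far1 t 0 ht (by omega)
      rw [hv] at h4
      exact absurd h4 (not_le.mpr this)
    · obtain ⟨t, ht, h4⟩ := ivt (a := fun t => h t D) (v := v) D
        (fun t ht => h1 t D ht le_rfl) hτ h3
      have := far2 t 0 ht (by omega)
      rw [hv] at h4
      exact absurd h4 (not_le.mpr this)
  have cB : ∀ v, v = h D 0 → ¬ ((h 0 0 ≤ v ∧ v ≤ h 0 D) ∨ (h 0 D ≤ v ∧ v ≤ h 0 0)) := by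
    intro v hv hb
    obtain ⟨t, ht, h4⟩ := ivt (a := fun t => h 0 t) (v := v) D
      (fun t ht => h2 0 t (by omega) ht) hτ hb
    have := far1 0 t (by omega) ht
    rw [hv, abs_sub_comm] at h4
    exact absurd h4 (not_le.mpr this)
  have cC : ∀ v, v = h 0 D → ¬ ((h 0 0 ≤ v ∧ v ≤ h D 0) ∨ (h D 0 ≤ v ∧ v ≤ h 0 0)) := by
    intro v hv hb
    obtain ⟨t, ht, h4⟩ := ivt (a := fun t => h t 0) (v := v) D
      (fun t ht => h1 t 0 ht (by omega)) hτ hb
    have := far2 0 t (by omega) ht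
    rw [hv, abs_sub_comm] at h4
    exact absurd h4 (not_le.mpr this)
  have a1 := cA _ rfl
  have a2 := cB _ rfl
  have a3 := cC _ rfl
  omega

/-- the subcells of a cell -/
def sub {k : ℕ} (n : ℕ) (y : Fin k → ℤ) : Finset (Fin k → ℤ) :=
  Finset.univ.image (fun u : Fin k → Fin n => fun c => (n:ℤ) * y c + (u c : ℕ))

theorem mem_sub {k n : ℕ} (hn : 0 < n) (y y' : Fin k → ℤ) :
    y' ∈ sub n y ↔ ∀ c, y' c / (n:ℤ) = y c := by
  have hn' : (0:ℤ) < n := by exact_mod_cast hn
  simp only [sub, Finset.mem_image, Finset.mem_univ, true_and]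
  constructor
  · rintro ⟨u, rfl⟩ c
    change ((n:ℤ) * y c + ((u c : ℕ) : ℤ)) / (n:ℤ) = y c
    have h1 : ((u c : ℕ) : ℤ) < n := by exact_mod_cast (u c).2
    have h2 : (0:ℤ) ≤ ((u c : ℕ) : ℤ) := by positivity
    rw [mul_comm, Int.add_comm, Int.add_mul_ediv_right _ _ hn'.ne', Int.ediv_eq_zero_of_lt h2 h1]
    ring
  · intro h
    refine ⟨fun c => ⟨(y' c % n).toNat, ?_⟩, ?_⟩
    · have h1 := Int.emod_nonneg (y' c) hn'.ne'
      have h2 := Int.emod_lt_of_pos (y' c) hn'
      omega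
    · funext c
      have h1 := Int.emod_nonneg (y' c) hn'.ne'
      have h2 := Int.mul_ediv_add_emod (y' c) n
      simp only [Int.toNat_of_nonneg h1]
      rw [← h c]; linarith

theorem card_sub_le {k n : ℕ} (y : Fin k → ℤ) : (sub n y).card ≤ n ^ k := by
  refine Finset.card_image_le.trans ?_
  simp

/-- the occupied cells at level `j` -/
def occ {k : ℕ} (z : ℕ → Fin k → ℤ) (M n j : ℕ) : Finset (Fin k → ℤ) :=
  (Finset.range (M+1)).image (fun i c => z i c / (n:ℤ) ^ j)

theorem exists_full {k : ℕ} (z : ℕ → Fin k → ℤ) {n b m : ℕ} (hn : 0 < n)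
    (hinj : ∀ i i', i ≤ n ^ (k * m) → i' ≤ n ^ (k * m) → z i = z i' → i = i')
    (hbox : ∀ i, i ≤ n ^ (k * m) → ∀ c, |z i c - z 0 c| ≤ b * (n:ℤ) ^ m)
    (hm : (n ^ k - 1) ^ m * (2 * b + 1) ^ k ≤ n ^ (k * m)) :
    ∃ j : ℕ, ∃ y : Fin k → ℤ, ∀ y' : Fin k → ℤ, (∀ c, y' c / (n:ℤ) = y c) →
      ∃ i ≤ n ^ (k * m), ∀ c, z i c / (n:ℤ) ^ j = y' c := by
  by_contra hcon
  push Not at hcon
  set M := n ^ (k * m) with hM
  have hn' : (0:ℤ) < n := by exact_mod_cast hn
  have hstep : ∀ j, (occ z M n j).card ≤ (n ^ k - 1) * (occ z M n (j+1)).card := by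
    intro j
    have himg : (occ z M n j).image (fun y c => y c / (n:ℤ)) = occ z M n (j+1) := by
      ext y
      simp only [occ, Finset.mem_image, Finset.mem_range]
      constructor
      · rintro ⟨y', ⟨i, hi, rfl⟩, rfl⟩
        refine ⟨i, hi, ?_⟩
        funext c
        rw [pow_succ, Int.ediv_ediv_of_nonneg (by positivity)]
      · rintro ⟨i, hi, rfl⟩
        refine ⟨_, ⟨i, hi, rfl⟩, ?_⟩
        funext c
        rw [pow_succ, Int.ediv_ediv_of_nonneg (by positivity)]
    rw [← himg]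
    apply Finset.card_le_mul_card_image
    intro y hy
    obtain ⟨y', hy', hmiss⟩ := hcon j y
    have hmem : y' ∈ sub n y := (mem_sub hn y y').mpr hy'
    have hsub : (occ z M n j).filter (fun x => (fun c => x c / (n:ℤ)) = y) ⊆
        (sub n y).erase y' := by
      intro x hx
      rw [Finset.mem_filter] at hx
      rw [Finset.mem_erase]
      refine ⟨?_, (mem_sub hn y x).mpr (fun c => congrFun hx.2 c)⟩
      intro hxy
      simp only [occ, Finset.mem_image, Finset.mem_range] at hx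
      obtain ⟨⟨i, hi, rfl⟩, _⟩ := hx
      obtain ⟨c, hc⟩ := hmiss i (by omega)
      exact hc (congrFun hxy c)
    calc _ ≤ ((sub n y).erase y').card := Finset.card_le_card hsub
      _ = (sub n y).card - 1 := Finset.card_erase_of_mem hmem
      _ ≤ n ^ k - 1 := Nat.sub_le_sub_right (card_sub_le y) 1
  have hall : ∀ j, (occ z M n 0).card ≤ (n ^ k - 1) ^ j * (occ z M n j).card := by
    intro j
    induction j with
    | zero => simp
    | succ j ih =>
      calc _ ≤ _ := ih
        _ ≤ (n ^ k - 1) ^ j * ((n ^ k - 1) * (occ z M n (j+1)).card) :=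
            Nat.mul_le_mul_left _ (hstep j)
        _ = _ := by rw [pow_succ]; ring
  have h0 : (occ z M n 0).card = M + 1 := by
    unfold occ
    rw [Finset.card_image_of_injOn, Finset.card_range]
    intro i hi i' hi' h
    simp only [Finset.coe_range, Set.mem_Iio] at hi hi'
    apply hinj i i' (by omega) (by omega)
    funext c
    have := congrFun h c
    simpa using this
  have hmm : (occ z M n m).card ≤ (2 * b + 1) ^ k := by
    have hsub : occ z M n m ⊆ Finset.Icc (fun c => z 0 c / (n:ℤ) ^ m - b)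
        (fun c => z 0 c / (n:ℤ) ^ m + b) := by
      intro y hy
      simp only [occ, Finset.mem_image, Finset.mem_range] at hy
      obtain ⟨i, hi, rfl⟩ := hy
      have hp : (0:ℤ) < (n:ℤ) ^ m := by positivity
      rw [Finset.mem_Icc]
      constructor
      · intro c
        have := abs_le.mp (hbox i (by omega) c)
        simp only []
        have e : z 0 c / (n:ℤ) ^ m - b = (z 0 c + (-(b:ℤ)) * (n:ℤ) ^ m) / (n:ℤ) ^ m := by
          rw [Int.add_mul_ediv_right _ _ hp.ne']; ring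
        rw [e]
        apply Int.ediv_le_ediv hp
        linarith
      · intro c
        have := abs_le.mp (hbox i (by omega) c)
        simp only []
        have e : z 0 c / (n:ℤ) ^ m + b = (z 0 c + (b:ℤ) * (n:ℤ) ^ m) / (n:ℤ) ^ m := by
          rw [Int.add_mul_ediv_right _ _ hp.ne']
        rw [e]
        apply Int.ediv_le_ediv hp
        linarith
    refine (Finset.card_le_card hsub).trans ?_
    rw [Pi.card_Icc]
    apply le_of_eq
    rw [Finset.prod_congr rfl (g := fun _ => 2 * b + 1)]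
    · simp
    · intro c _
      rw [Int.card_Icc]
      omega
  have := hall m
  rw [h0] at this
  have h5 : (n ^ k - 1) ^ m * (occ z M n m).card ≤ (n ^ k - 1) ^ m * (2 * b + 1) ^ k :=
    Nat.mul_le_mul_left _ hmm
  omega

theorem cell_close {x y s : ℤ} (hs : 0 < s) (h : |x / s - y / s| ≤ 1) : |x - y| ≤ 2 * s := by
  have m1 := Int.mul_ediv_add_emod x s
  have m2 := Int.mul_ediv_add_emod y s
  have m3 := Int.emod_nonneg x hs.ne'
  have m4 := Int.emod_lt_of_pos x hs
  have m5 := Int.emod_nonneg y hs.ne'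
  have m6 := Int.emod_lt_of_pos y hs
  rw [abs_le] at h ⊢
  have h1 := mul_le_mul_of_nonneg_left h.1 hs.le
  have h2 := mul_le_mul_of_nonneg_left h.2 hs.le
  constructor <;> linarith

theorem cell_far {x y s D : ℤ} (hs : 0 < s) (h : D + 1 ≤ |x / s - y / s|) : D * s ≤ |x - y| := by
  have m1 := Int.mul_ediv_add_emod x s
  have m2 := Int.mul_ediv_add_emod y s
  have m3 := Int.emod_nonneg x hs.ne'
  have m4 := Int.emod_lt_of_pos x hs
  have m5 := Int.emod_nonneg y hs.ne'
  have m6 := Int.emod_lt_of_pos y hs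
  rw [le_abs] at h ⊢
  rcases h with h | h
  · left
    have h1 := mul_le_mul_of_nonneg_left h hs.le
    linarith
  · right
    have h1 := mul_le_mul_of_nonneg_left h hs.le
    linarith

theorem pow_gap {k b : ℕ} (hk0 : k ≠ 0) {s : ℤ} (hs0 : 0 < s) :
    (2 * s) ^ k * b < ((2 * b + 1) * s) ^ k := by
  rw [mul_pow, mul_pow]
  have h1 : (2:ℤ) ^ k * b < (2 * b + 1) ^ k := by
    calc (2:ℤ) ^ k * b ≤ 2 ^ k * (b:ℤ) ^ k := by
          apply mul_le_mul_of_nonneg_left _ (by positivity)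
          exact_mod_cast Nat.le_self_pow hk0 b
      _ = (2 * b) ^ k := by rw [mul_pow]
      _ < (2 * b + 1) ^ k := by
          apply pow_lt_pow_left₀ (by linarith) (by positivity) hk0
  have h2 : 0 < s ^ k := by positivity
  calc (2:ℤ) ^ k * s ^ k * b = (2 ^ k * b) * s ^ k := by ring
    _ < (2 * b + 1) ^ k * s ^ k := mul_lt_mul_of_pos_right h1 h2

/-- the finite obstruction -/
theorem no_sequence {k : ℕ} (hk : 2 ≤ k) (b : ℕ) (hb : 1 ≤ b) :
    ∃ M : ℕ, 2 ≤ M ∧ ∀ z : ℕ → Fin k → ℤ,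
      (∀ i i', i < i' → i' ≤ M → ∀ c, |z i' c - z i c| ^ k ≤ b * ((i':ℤ) - i)) →
      (∀ i i', i < i' → i' ≤ M → ∃ c, (i':ℤ) - i ≤ |z i' c - z i c| ^ k) → False := by
  set D := 2 * b + 2 with hD
  set n := D + 1 with hn
  have hn0 : 0 < n := by omega
  have hk0 : k ≠ 0 := by omega
  have hX : 2 ≤ n ^ k := by
    calc 2 ≤ n := by omega
      _ ≤ n ^ k := Nat.le_self_pow hk0 n
  -- number of levels
  obtain ⟨m, hm1, hm⟩ : ∃ m : ℕ, 1 ≤ m ∧ (n ^ k - 1) ^ m * (2 * b + 1) ^ k ≤ n ^ (k * m) := by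
    have h1 : (1:ℝ) < (n ^ k : ℕ) / ((n ^ k - 1 : ℕ) : ℝ) := by
      rw [one_lt_div (by exact_mod_cast (by omega : 0 < n ^ k - 1))]
      exact_mod_cast (by omega : n ^ k - 1 < n ^ k)
    obtain ⟨m, hm⟩ := pow_unbounded_of_one_lt (((2 * b + 1) ^ k : ℕ) : ℝ) h1
    refine ⟨m, ?_, ?_⟩
    · rcases Nat.eq_zero_or_pos m with h | h
      · subst h
        rw [pow_zero] at hm
        have : (1:ℝ) ≤ (((2 * b + 1) ^ k : ℕ) : ℝ) := by
          exact_mod_cast Nat.one_le_pow _ _ (by omega)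
        linarith
      · exact h
    · rw [div_pow, lt_div_iff₀ (by
        apply pow_pos; exact_mod_cast (by omega : 0 < n ^ k - 1))] at hm
      have : (((2 * b + 1) ^ k * (n ^ k - 1) ^ m : ℕ) : ℝ) < (((n ^ k) ^ m : ℕ) : ℝ) := by
        push_cast at hm ⊢
        exact hm
      have h2 : (2 * b + 1) ^ k * (n ^ k - 1) ^ m < (n ^ k) ^ m := by exact_mod_cast this
      rw [pow_mul, mul_comm]
      exact h2.le
  refine ⟨n ^ (k * m), ?_, ?_⟩
  · rw [pow_mul]
    calc 2 ≤ n ^ k := hX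
      _ ≤ (n ^ k) ^ m := Nat.le_self_pow (by omega) _
  intro z hup hlow
  set M := n ^ (k * m) with hM
  have hbox : ∀ i, i ≤ M → ∀ c, |z i c - z 0 c| ≤ b * (n:ℤ) ^ m := by
    intro i hi c
    rcases Nat.eq_zero_or_pos i with h | h
    · subst h; simp; positivity
    · have h1 := hup 0 i h hi c
      have h2 : (b:ℤ) * ((i:ℤ) - (0:ℕ)) ≤ (b * (n:ℤ) ^ m) ^ k := by
        rw [mul_pow, ← pow_mul, mul_comm m k]
        have h3 : (i:ℤ) ≤ (n:ℤ) ^ (k * m) := by exact_mod_cast hi
        have h4 : (b:ℤ) ≤ (b:ℤ) ^ k := by exact_mod_cast Nat.le_self_pow hk0 b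
        have h5 : (0:ℤ) ≤ i := by positivity
        push_cast
        rw [sub_zero]
        exact mul_le_mul h4 h3 h5 (by positivity)
      exact (pow_le_pow_iff_left₀ (abs_nonneg _) (by positivity) hk0).mp (h1.trans h2)
  have hinj : ∀ i i', i ≤ M → i' ≤ M → z i = z i' → i = i' := by
    intro i i' hi hi' h
    rcases lt_trichotomy i i' with h1 | h1 | h1
    · exfalso
      obtain ⟨c, hc⟩ := hlow i i' h1 hi'
      rw [h] at hc
      simp [hk0] at hc
      omega
    · exact h1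
    · exfalso
      obtain ⟨c, hc⟩ := hlow i' i h1 hi
      rw [h] at hc
      simp [hk0] at hc
      omega
  obtain ⟨j, y, hfull⟩ := exists_full z (n := n) (b := b) (m := m) hn0 hinj hbox hm
  -- times of the subcells
  have hn' : (0:ℤ) < n := by exact_mod_cast hn0
  have hex : ∀ p q : ℕ, ∃ i : ℕ, p ≤ D → q ≤ D → (i ≤ M ∧
      ∀ c : Fin k, z i c / (n:ℤ) ^ j = n * y c +
        (if c.val = 0 then (p:ℤ) else if c.val = 1 then (q:ℤ) else 0)) := by
    intro p q
    by_cases hp : p ≤ D ∧ q ≤ D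
    · obtain ⟨i, hi, h⟩ := hfull (fun c => n * y c +
        (if c.val = 0 then (p:ℤ) else if c.val = 1 then (q:ℤ) else 0)) (by
          intro c
          have h1 : (0:ℤ) ≤ (if c.val = 0 then (p:ℤ) else if c.val = 1 then (q:ℤ) else 0) := by
            split_ifs <;> positivity
          have h2 : (if c.val = 0 then (p:ℤ) else if c.val = 1 then (q:ℤ) else 0) < n := by
            have hp1 : (p:ℤ) < n := by exact_mod_cast (by omega : p < n)
            have hp2 : (q:ℤ) < n := by exact_mod_cast (by omega : q < n)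
            split_ifs
            · exact hp1
            · exact hp2
            · exact hn'
          rw [mul_comm, Int.add_comm, Int.add_mul_ediv_right _ _ hn'.ne',
            Int.ediv_eq_zero_of_lt h1 h2]
          ring)
      exact ⟨i, fun _ _ => ⟨hi, h⟩⟩
    · exact ⟨0, fun h1 h2 => absurd ⟨h1, h2⟩ hp⟩
  choose t ht using hex
  set s : ℤ := (n:ℤ) ^ j with hs
  have hs0 : 0 < s := by positivity
  -- close cells give close times
  have hclose : ∀ p q p' q', p ≤ D → q ≤ D → p' ≤ D → q' ≤ D →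
      |(p:ℤ) - p'| ≤ 1 → |(q:ℤ) - q'| ≤ 1 → |(t p q : ℤ) - t p' q'| ≤ (2 * s) ^ k := by
    intro p q p' q' hp hq hp' hq' hpp hqq
    obtain ⟨hi, h⟩ := ht p q hp hq
    obtain ⟨hi', h'⟩ := ht p' q' hp' hq'
    have hz : ∀ c, |z (t p q) c - z (t p' q') c| ≤ 2 * s := by
      intro c
      apply cell_close hs0
      rw [h c, h' c]
      split_ifs
      · rw [show (n:ℤ) * y c + p - (n * y c + p') = (p:ℤ) - p' by ring]; exact hpp
      · rw [show (n:ℤ) * y c + q - (n * y c + q') = (q:ℤ) - q' by ring]; exact hqq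
      · simp
    rcases lt_trichotomy (t p q) (t p' q') with h1 | h1 | h1
    · obtain ⟨c, hc⟩ := hlow _ _ h1 hi'
      rw [abs_sub_comm, abs_of_nonneg (by
        have : (t p q : ℤ) < t p' q' := by exact_mod_cast h1
        linarith)]
      refine hc.trans ?_
      apply pow_le_pow_left₀ (abs_nonneg _)
      rw [abs_sub_comm]; exact hz c
    · rw [h1]; simp; positivity
    · obtain ⟨c, hc⟩ := hlow _ _ h1 hi
      rw [abs_of_nonneg (by
        have : (t p' q' : ℤ) < t p q := by exact_mod_cast h1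
        linarith)]
      refine hc.trans ?_
      apply pow_le_pow_left₀ (abs_nonneg _)
      exact hz c
  -- far cells give far times
  have hfar : ∀ p q p' q', p ≤ D → q ≤ D → p' ≤ D → q' ≤ D → ∀ c : Fin k,
      (D:ℤ) ≤ |z (t p q) c / s - z (t p' q') c / s| → (2 * s) ^ k < |(t p q : ℤ) - t p' q'| := by
    intro p q p' q' hp hq hp' hq' c hc
    obtain ⟨hi, h⟩ := ht p q hp hq
    obtain ⟨hi', h'⟩ := ht p' q' hp' hq'
    have hz : (2 * b + 1) * s ≤ |z (t p q) c - z (t p' q') c| := by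
      apply cell_far hs0
      have hD' : (D:ℤ) = 2 * b + 2 := by rw [hD]; push_cast; ring
      linarith
    have hpow := pow_gap (b := b) hk0 hs0
    have hge : ((2 * b + 1) * s) ^ k ≤ |z (t p q) c - z (t p' q') c| ^ k := by
      apply pow_le_pow_left₀ (by positivity) hz
    have hb' : (0:ℤ) < b := by exact_mod_cast hb
    rcases lt_trichotomy (t p q) (t p' q') with h1 | h1 | h1
    · have e := hup _ _ h1 hi' c
      rw [abs_sub_comm] at e
      rw [abs_sub_comm, abs_of_nonneg (by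
        have : (t p q : ℤ) < t p' q' := by exact_mod_cast h1
        linarith)]
      have : (2 * s) ^ k * b < b * ((t p' q' : ℤ) - t p q) := by linarith
      nlinarith
    · rw [h1] at hge
      simp [hk0] at hge
      exfalso
      have : (0:ℤ) < ((2 * b + 1) * s) ^ k := by positivity
      linarith
    · have e := hup _ _ h1 hi c
      rw [abs_of_nonneg (by
        have : (t p' q' : ℤ) < t p q := by exact_mod_cast h1
        linarith)]
      have : (2 * s) ^ k * b < b * ((t p q : ℤ) - t p' q') := by linarith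
      nlinarith
  apply no_height D ((2 * s) ^ k) (by positivity) (fun p q => (t p q : ℤ))
  · intro p q hp hq
    apply hclose _ _ _ _ (by omega) hq (by omega) hq
    · push_cast; simp
    · simp
  · intro p q hp hq
    apply hclose _ _ _ _ hp (by omega) hp (by omega)
    · simp
    · push_cast; simp
  · intro q q' hq hq'
    apply hfar _ _ _ _ le_rfl hq (by omega) hq' ⟨0, by omega⟩
    rw [(ht D q le_rfl hq).2, (ht 0 q' (by omega) hq').2]
    simp
  · intro p p' hp hp'
    apply hfar _ _ _ _ hp le_rfl hp' (by omega) ⟨1, by omega⟩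
    rw [(ht p D hp le_rfl).2, (ht p' 0 hp' (by omega)).2]
    simp

end Q184.Rate
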