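import Mathlib

/-!
Geometry of the blocks: signed coordinate exchanges, double cones around a segment of the
first axis, separation of the double cones of two edges of the lattice.
-/

namespace Q184.Rate

variable {ι : Type*} [DecidableEq ι]

/-- signed coordinate exchange taking the basis vector `a0` to `σ` times the basis vector `a` -/
def T (a0 a : ι) (σ : ℤ) (x : ι → ℤ) : ι → ℤ := fun c => σ * x (Equiv.swap a0 a c)

theorem T_zero (a0 a : ι) (σ : ℤ) : T a0 a σ 0 = 0 := by
  funext c; simp [T]

theorem T_apply_self (a0 a : ι) (σ : ℤ) (x : ι → ℤ) : T a0 a σ x a = σ * x a0 := by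
  simp [T]

theorem T_one (a0 : ι) (x : ι → ℤ) : T a0 a0 1 x = x := by
  funext c; simp [T]

theorem T_single (a0 a : ι) (σ s : ℤ) : T a0 a σ (Pi.single a0 s) = Pi.single a (σ * s) := by
  funext c
  simp only [T]
  by_cases h : c = a
  · subst h; simp
  · rw [Pi.single_eq_of_ne h]
    have : Equiv.swap a0 a c ≠ a0 := by
      intro h2
      apply h
      have := congrArg (Equiv.swap a0 a) h2
      simpa using this
    rw [Pi.single_eq_of_ne this]; simp

theorem T_sub (a0 a : ι) (σ : ℤ) (x y : ι → ℤ) (c : ι) :
    T a0 a σ x c - T a0 a σ y c = σ * (x (Equiv.swap a0 a c) - y (Equiv.swap a0 a c)) := by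
  simp only [T]; ring

/-- the double cone around the segment from `0` to `S` times the basis vector `a0` -/
structure Reg (a0 : ι) (S : ℤ) (x : ι → ℤ) : Prop where
  nonneg : 0 ≤ x a0
  le : x a0 ≤ S
  cone : ∀ c, c ≠ a0 → 4 * |x c| ≤ x a0
  cone' : ∀ c, c ≠ a0 → 4 * |x c| ≤ S - x a0

theorem Reg.abs_le {a0 : ι} {S : ℤ} {x : ι → ℤ} (h : Reg a0 S x) (c : ι) : |x c| ≤ S := by
  by_cases hc : c = a0
  · subst hc
    have := h.nonneg
    have := h.le
    rw [abs_of_nonneg (by assumption)]; assumption
  · have := h.cone c hc
    have := h.le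
    have := abs_nonneg (x c)
    linarith

theorem Reg.cross {a0 : ι} {S : ℤ} {x : ι → ℤ} (h : Reg a0 S x) {c : ι} (hc : c ≠ a0) :
    8 * |x c| ≤ S := by
  have := h.cone c hc
  have := h.cone' c hc
  linarith

/-- value of `T` off the axis -/
theorem T_cross {a0 a : ι} {σ : ℤ} (hσ : σ = 1 ∨ σ = -1) (x : ι → ℤ) {c : ι} (hc : c ≠ a) :
    ∃ c', c' ≠ a0 ∧ |T a0 a σ x c| = |x c'| := by
  refine ⟨Equiv.swap a0 a c, ?_, ?_⟩
  · intro h2
    apply hc
    have := congrArg (Equiv.swap a0 a) h2
    simpa using this
  · simp only [T, abs_mul]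
    rcases hσ with h | h <;> subst h <;> simp

theorem T_abs_le {a0 a : ι} {σ : ℤ} (hσ : σ = 1 ∨ σ = -1) {S : ℤ} {x : ι → ℤ}
    (h : Reg a0 S x) (c : ι) : |T a0 a σ x c| ≤ S := by
  simp only [T, abs_mul]
  have := h.abs_le (Equiv.swap a0 a c)
  rcases hσ with h | h <;> subst h <;> simpa using this

theorem T_cross_le {a0 a : ι} {σ : ℤ} (hσ : σ = 1 ∨ σ = -1) {S : ℤ} {x : ι → ℤ}
    (h : Reg a0 S x) {c : ι} (hc : c ≠ a) : 8 * |T a0 a σ x c| ≤ S := by
  obtain ⟨c', h1, h2⟩ := T_cross (a0 := a0) hσ x hc
  rw [h2]; exact h.cross h1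

theorem T_cross_cone {a0 a : ι} {σ : ℤ} (hσ : σ = 1 ∨ σ = -1) {x : ι → ℤ}
    (h : ∀ c, c ≠ a0 → 4 * |x c| ≤ x a0) {c : ι} (hc : c ≠ a) :
    4 * |T a0 a σ x c| ≤ x a0 := by
  obtain ⟨c', h1, h2⟩ := T_cross (a0 := a0) hσ x hc
  rw [h2]; exact h c' h1

/-- if the double cones of two edges come close, the edges have a common vertex -/
theorem nonadj {a0 a b : ι} {σ τ S : ℤ} (hσ : σ = 1 ∨ σ = -1) (hτ : τ = 1 ∨ τ = -1)
    (hS : 0 < S) (x y u v : ι → ℤ) (hu : Reg a0 S u) (hv : Reg a0 S v)
    (h1 : x ≠ y) (h2 : x + Pi.single a σ ≠ y) (h3 : x ≠ y + Pi.single b τ)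
    (h4 : x + Pi.single a σ ≠ y + Pi.single b τ) :
    ∃ c, S ≤ 2 * |(S * x c + T a0 a σ u c) - (S * y c + T a0 b τ v c)| := by
  by_contra hcon
  push Not at hcon
  -- coordinates off both axes agree
  have hoff : ∀ c, c ≠ a → c ≠ b → x c = y c := by
    intro c hca hcb
    have e1 := hcon c
    have e2 := T_cross_le (a0 := a0) hσ hu hca
    have e3 := T_cross_le (a0 := a0) hτ hv hcb
    have e4 : |S * (x c - y c)| < S := by
      have : S * (x c - y c) = ((S * x c + T a0 a σ u c) - (S * y c + T a0 b τ v c))
        - T a0 a σ u c + T a0 b τ v c := by ring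
      rw [this]
      have := abs_add_le (((S * x c + T a0 a σ u c) - (S * y c + T a0 b τ v c))
        - T a0 a σ u c) (T a0 b τ v c)
      have := abs_sub ((S * x c + T a0 a σ u c) - (S * y c + T a0 b τ v c)) (T a0 a σ u c)
      linarith
    rw [abs_mul, abs_of_pos hS] at e4
    have e5 : |x c - y c| < 1 := by
      by_contra h
      push Not at h
      nlinarith
    have := Int.abs_lt_one_iff.mp e5
    linarith
  by_cases hab : a = b
  · subst hab
    have e1 := hcon a
    rw [T_apply_self, T_apply_self] at e1
    have hu1 := hu.nonneg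
    have hu2 := hu.le
    have hv1 := hv.nonneg
    have hv2 := hv.le
    rw [show 2 * |S * x a + σ * u a0 - (S * y a + τ * v a0)| =
      |2 * (S * x a + σ * u a0 - (S * y a + τ * v a0))| from by rw [abs_mul]; norm_num,
      abs_lt] at e1
    obtain ⟨e2, e3⟩ := e1
    have key : x a = y a ∨ x a + σ = y a ∨ x a = y a + τ ∨ x a + σ = y a + τ := by
      rcases hσ with h | h <;> rcases hτ with h' | h' <;> subst h <;> subst h'
      · -- 1, 1
        have f1 : x a - y a < 2 := by
          by_contra hh; push Not at hh; nlinarith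
        have f2 : -2 < x a - y a := by
          by_contra hh; push Not at hh; nlinarith
        omega
      · have f1 : x a - y a < 1 := by
          by_contra hh; push Not at hh; nlinarith
        have f2 : -3 < x a - y a := by
          by_contra hh; push Not at hh; nlinarith
        omega
      · have f1 : x a - y a < 3 := by
          by_contra hh; push Not at hh; nlinarith
        have f2 : -1 < x a - y a := by
          by_contra hh; push Not at hh; nlinarith
        omega
      · have f1 : x a - y a < 2 := by
          by_contra hh; push Not at hh; nlinarith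
        have f2 : -2 < x a - y a := by
          by_contra hh; push Not at hh; nlinarith
        omega
    have hfun : ∀ s t : ℤ, x a + s = y a + t → x + Pi.single a s = y + Pi.single a t := by
      intro s t hst
      funext c
      by_cases hc : c = a
      · subst hc; simpa using hst
      · simp [Pi.single_eq_of_ne hc, hoff c hc hc]
    rcases key with h | h | h | h
    · apply h1
      have := hfun 0 0 (by simpa using h)
      simpa using this
    · apply h2
      have := hfun σ 0 (by simpa using h)
      simpa using this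
    · apply h3
      have := hfun 0 τ (by simpa using h)
      simpa using this
    · exact h4 (hfun σ τ h)
  · -- a ≠ b
    have ka : x a = y a ∨ x a + σ = y a := by
      have e1 := hcon a
      rw [T_apply_self] at e1
      have e3 := T_cross_le (a0 := a0) hτ hv (c := a) hab
      have hu1 := hu.nonneg
      have hu2 := hu.le
      rw [show 2 * |S * x a + σ * u a0 - (S * y a + T a0 b τ v a)| =
        |2 * (S * x a + σ * u a0 - (S * y a + T a0 b τ v a))| from by rw [abs_mul]; norm_num,
        abs_lt] at e1
      rw [show 8 * |T a0 b τ v a| = |8 * T a0 b τ v a| from by rw [abs_mul]; norm_num,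
        abs_le] at e3
      obtain ⟨e2, e2'⟩ := e1
      obtain ⟨e4, e4'⟩ := e3
      rcases hσ with h | h <;> subst h
      · have f1 : x a - y a < 1 := by
          by_contra hh; push Not at hh; nlinarith
        have f2 : -2 < x a - y a := by
          by_contra hh; push Not at hh; nlinarith
        omega
      · have f1 : x a - y a < 2 := by
          by_contra hh; push Not at hh; nlinarith
        have f2 : -1 < x a - y a := by
          by_contra hh; push Not at hh; nlinarith
        omega
    have kb : x b = y b ∨ x b = y b + τ := by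
      have e1 := hcon b
      rw [T_apply_self] at e1
      have e3 := T_cross_le (a0 := a0) hσ hu (c := b) (Ne.symm hab)
      have hu1 := hv.nonneg
      have hu2 := hv.le
      rw [show 2 * |S * x b + T a0 a σ u b - (S * y b + τ * v a0)| =
        |2 * (S * x b + T a0 a σ u b - (S * y b + τ * v a0))| from by rw [abs_mul]; norm_num,
        abs_lt] at e1
      rw [show 8 * |T a0 a σ u b| = |8 * T a0 a σ u b| from by rw [abs_mul]; norm_num,
        abs_le] at e3
      obtain ⟨e2, e2'⟩ := e1
      obtain ⟨e4, e4'⟩ := e3
      rcases hτ with h | h <;> subst h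
      · have f1 : x b - y b < 2 := by
          by_contra hh; push Not at hh; nlinarith
        have f2 : -1 < x b - y b := by
          by_contra hh; push Not at hh; nlinarith
        omega
      · have f1 : x b - y b < 1 := by
          by_contra hh; push Not at hh; nlinarith
        have f2 : -2 < x b - y b := by
          by_contra hh; push Not at hh; nlinarith
        omega
    have hfun : ∀ s t : ℤ, x a + s = y a → x b = y b + t →
        x + Pi.single a s = y + Pi.single b t := by
      intro s t hs ht
      funext c
      by_cases hc : c = a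
      · subst hc; simpa [Pi.single_eq_of_ne hab] using hs
      · by_cases hc' : c = b
        · subst hc'; simpa [Pi.single_eq_of_ne hc] using ht
        · simp [Pi.single_eq_of_ne hc, Pi.single_eq_of_ne hc', hoff c hc hc']
    rcases ka with h | h <;> rcases kb with h' | h'
    · apply h1
      have := hfun 0 0 (by simpa using h) (by simpa using h')
      simpa using this
    · apply h3
      have := hfun 0 τ (by simpa using h) (by simpa using h')
      simpa using this
    · apply h2
      have := hfun σ 0 (by simpa using h) (by simpa using h')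
      simpa using this
    · exact h4 (hfun σ τ h h')

/-- two cones with the same apex around different axis directions -/
theorem adj {a0 a b : ι} {σ τ : ℤ} (hσ : σ = 1 ∨ σ = -1) (hτ : τ = 1 ∨ τ = -1)
    (hne : ¬ (a = b ∧ σ = τ)) (u v : ι → ℤ) (hu0 : 0 ≤ u a0) (hv0 : 0 ≤ v a0)
    (hu : ∀ c, c ≠ a0 → 4 * |u c| ≤ u a0) (hv : ∀ c, c ≠ a0 → 4 * |v c| ≤ v a0) :
    ∃ c, 3 * u a0 ≤ 4 * |T a0 a σ u c - T a0 b τ v c| ∧
      3 * v a0 ≤ 4 * |T a0 a σ u c - T a0 b τ v c| := by
  by_cases hab : a = b
  · subst hab
    refine ⟨a, ?_⟩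
    rw [T_apply_self, T_apply_self]
    have hst : σ = -τ := by
      rcases hσ with h | h <;> rcases hτ with h' | h' <;> subst h <;> subst h' <;> simp at hne ⊢
    subst hst
    have : |-τ * u a0 - τ * v a0| = u a0 + v a0 := by
      rcases hτ with h | h <;> subst h
      · rw [show (-1 * u a0 - 1 * v a0) = -(u a0 + v a0) by ring, abs_neg,
          abs_of_nonneg (by linarith)]
      · rw [show (- -1 * u a0 - -1 * v a0) = (u a0 + v a0) by ring,
          abs_of_nonneg (by linarith)]
    rw [this]
    constructor <;> linarith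
  · rcases le_total (v a0) (u a0) with h | h
    · refine ⟨a, ?_⟩
      rw [T_apply_self]
      have e := T_cross_cone (a0 := a0) hτ hv (c := a) hab
      have e1 : |σ * u a0| = u a0 := by
        rcases hσ with h | h <;> subst h <;> simp [abs_of_nonneg hu0]
      have e2 := abs_sub_abs_le_abs_sub (σ * u a0) (T a0 b τ v a)
      rw [e1] at e2
      constructor <;> linarith
    · refine ⟨b, ?_⟩
      rw [T_apply_self]
      have e := T_cross_cone (a0 := a0) hσ hu (c := b) (Ne.symm hab)
      have e1 : |τ * v a0| = v a0 := by
        rcases hτ with h | h <;> subst h <;> simp [abs_of_nonneg hv0]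
      have e2 := abs_sub_abs_le_abs_sub (τ * v a0) (T a0 a σ u b)
      rw [e1, abs_sub_comm] at e2
      constructor <;> linarith

end Q184.Rate
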