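import Pool.Agent.Q184.Rate.Nec

/-!
The linear rate, and the reduction of an indexed sequence to the data used in the necessity part.
-/

namespace Q184.Rate

/-- the linear growth at every scale gives linear growth -/
theorem linear_bounds {f : ℕ → ℝ} (hpos : ∀ n, 1 ≤ n → 0 < f n)
    (hmono : ∀ m n, 1 ≤ m → m ≤ n → f m ≤ f n) {α c C : ℝ} (hα : 1 ≤ α) (hc : 0 < c) (hC : 0 < C)
    {N0 : ℕ} (h : ∀ N : ℕ, N0 ≤ N → ∀ M : ℕ, 1 ≤ M →
      c * (M:ℝ) ^ α * f N ≤ f (M * N) ∧ f (M * N) ≤ C * M * f N) :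
    ∃ a > 0, ∃ b > 0, ∃ N1 ≥ 1, ∀ t : ℕ, N1 ≤ t → a * t ≤ f t ∧ f t ≤ b * t := by
  set N1 := N0 + 1 with hN1
  have hf := hpos N1 (by omega)
  have hN1r : (0:ℝ) < N1 := by positivity
  refine ⟨c * f N1 / (2 * N1), by positivity, 2 * C * f N1 / N1, by positivity, N1, by omega, ?_⟩
  intro t ht
  set q := t / N1 with hq
  have hq1 : 1 ≤ q := (Nat.one_le_div_iff (by omega)).mpr ht
  have e : N1 * q + t % N1 = t := Nat.div_add_mod t N1
  have e2 := Nat.mod_lt t (show 0 < N1 by omega)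
  have hq1r : (1:ℝ) ≤ q := by exact_mod_cast hq1
  have h1 : q * N1 ≤ t := Nat.div_mul_le_self t N1
  have h2 : t ≤ (q + 1) * N1 := by
    rw [Nat.add_mul]
    rw [mul_comm] at e
    omega
  have k1 : (t:ℝ) ≤ 2 * q * N1 := by
    have : (t:ℝ) ≤ (q + 1) * N1 := by exact_mod_cast h2
    nlinarith
  have k2 : (q:ℝ) * N1 ≤ t := by exact_mod_cast h1
  constructor
  · have h3 := (h N1 (by omega) q hq1).1
    have h4 := hmono (q * N1) t (by
      calc 1 ≤ 1 * N1 := by omega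
        _ ≤ q * N1 := Nat.mul_le_mul_right _ hq1) h1
    have h5 : (q:ℝ) ≤ (q:ℝ) ^ α := by
      calc (q:ℝ) = (q:ℝ) ^ (1:ℝ) := by rw [Real.rpow_one]
        _ ≤ (q:ℝ) ^ α := Real.rpow_le_rpow_of_exponent_le hq1r hα
    calc c * f N1 / (2 * N1) * t ≤ c * f N1 / (2 * N1) * (2 * q * N1) :=
          mul_le_mul_of_nonneg_left k1 (by positivity)
      _ = c * q * f N1 := by field_simp
      _ ≤ c * (q:ℝ) ^ α * f N1 := by
          apply mul_le_mul_of_nonneg_right _ hf.le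
          exact mul_le_mul_of_nonneg_left h5 hc.le
      _ ≤ f t := h3.trans h4
  · have h3 := (h N1 (by omega) (q+1) (by omega)).2
    have h4 := hmono t ((q+1) * N1) (by omega) h2
    calc f t ≤ C * ((q+1 : ℕ) : ℝ) * f N1 := h4.trans h3
      _ ≤ C * (2 * q) * f N1 := by
          apply mul_le_mul_of_nonneg_right _ hf.le
          apply mul_le_mul_of_nonneg_left _ hC.le
          push_cast; linarith
      _ = 2 * C * f N1 / N1 * (q * N1) := by field_simp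
      _ ≤ 2 * C * f N1 / N1 * t := mul_le_mul_of_nonneg_left k2 (by positivity)

/-- the linear sequence on the line -/
theorem suff_line {f : ℕ → ℝ} (hpos : ∀ n, 1 ≤ n → 0 < f n)
    (hmono : ∀ m n, 1 ≤ m → m ≤ n → f m ≤ f n) {α c C : ℝ} (hα : 1 ≤ α) (hc : 0 < c) (hC : 0 < C)
    {N0 : ℕ} (h : ∀ N : ℕ, N0 ≤ N → ∀ M : ℕ, 1 ≤ M →
      c * (M:ℝ) ^ α * f N ≤ f (M * N) ∧ f (M * N) ≤ C * M * f N) :
    ∃ p : ℤ → EuclideanSpace ℝ (Fin 1), ∃ A > 0, ∃ B > 0, ∃ N1 ≥ 1, ∀ m n : ℤ,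
      N1 ≤ (n - m).natAbs →
        A * f (n - m).natAbs ≤ dist (p n) (p m) ∧ dist (p n) (p m) ≤ B * f (n - m).natAbs := by
  obtain ⟨a, ha, b, hb, N1, hN1, hab⟩ := linear_bounds hpos hmono hα hc hC h
  refine ⟨fun n => WithLp.toLp 2 (fun _ => (n:ℝ)), 1 / b, by positivity, 1 / a, by positivity,
    N1, hN1, ?_⟩
  intro m n hmn
  have hd : dist (WithLp.toLp 2 (fun _ => (n:ℝ)) : EuclideanSpace ℝ (Fin 1))
      (WithLp.toLp 2 (fun _ => (m:ℝ))) = ((n - m).natAbs : ℝ) := by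
    rw [EuclideanSpace.dist_eq]
    simp only [Finset.univ_unique, Finset.sum_singleton]
    rw [Real.sqrt_sq (dist_nonneg), Real.dist_eq, Nat.cast_natAbs]
    push_cast; rfl
  rw [hd]
  obtain ⟨h1, h2⟩ := hab _ hmn
  constructor
  · rw [one_div, inv_mul_le_iff₀ hb]; exact h2
  · rw [one_div, ← div_eq_inv_mul, le_div_iff₀ ha, mul_comm]; exact h1

/-- data from a sequence indexed by the positive integers -/
def mkData {k : ℕ} {f : ℕ → ℝ} (hpos : ∀ n, 1 ≤ n → 0 < f n)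
    (hmono : ∀ m n, 1 ≤ m → m ≤ n → f m ≤ f n) (p : ℤ → EuclideanSpace ℝ (Fin k)) (A B : ℝ)
    (hA : 0 < A) (hB : 0 < B) (N0 : ℕ) (hN0 : 1 ≤ N0)
    (h : ∀ m n : ℤ, 1 ≤ m → 1 ≤ n → N0 ≤ (n - m).natAbs →
        A * f (n - m).natAbs ≤ dist (p n) (p m) ∧ dist (p n) (p m) ≤ B * f (n - m).natAbs) :
    Data k f where
  pos := hpos
  mono := hmono
  p := fun n => p (n + 1)
  A := A
  B := B
  hA := hA
  hB := hB
  N0 := N0
  hN0 := hN0
  low := by
    intro m n hmn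
    have := (h ((m:ℤ)+1) ((n:ℤ)+1) (by omega) (by omega) (by omega)).1
    rw [show ((n:ℤ) + 1 - (m + 1)).natAbs = n - m by omega] at this
    exact this
  up := by
    intro m n hmn
    have := (h ((m:ℤ)+1) ((n:ℤ)+1) (by omega) (by omega) (by omega)).2
    rw [show ((n:ℤ) + 1 - (m + 1)).natAbs = n - m by omega] at this
    exact this

end Q184.Rate
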