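import Pool.Agent.Q184.Rate.Suff
import Pool.Agent.Q184.Rate.Fill

/-!
Necessity of the criterion.
-/

namespace Q184.Rate

open Real

/-- hypotheses extracted from a distorted sequence -/
structure Data (k : ℕ) (f : ℕ → ℝ) where
  pos : ∀ n, 1 ≤ n → 0 < f n
  mono : ∀ m n, 1 ≤ m → m ≤ n → f m ≤ f n
  p : ℕ → EuclideanSpace ℝ (Fin k)
  A : ℝ
  B : ℝ
  hA : 0 < A
  hB : 0 < B
  N0 : ℕ
  hN0 : 1 ≤ N0
  low : ∀ m n, m + N0 ≤ n → A * f (n - m) ≤ dist (p n) (p m)
  up : ∀ m n, m + N0 ≤ n → dist (p n) (p m) ≤ B * f (n - m)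

namespace Data

variable {k : ℕ} {f : ℕ → ℝ} (H : Data k f)

theorem A_le_B : H.A ≤ H.B := by
  have h1 := H.low 0 H.N0 (by omega)
  have h2 := H.up 0 H.N0 (by omega)
  rw [Nat.sub_zero] at h1 h2
  have h3 := H.pos H.N0 H.hN0
  have := h1.trans h2
  by_contra h
  push Not at h
  nlinarith

/-- at most linear growth at every scale -/
theorem linear {N M : ℕ} (hN : H.N0 ≤ N) (hM : 1 ≤ M) :
    f (M * N) ≤ H.B / H.A * M * f N := by
  have hN0 := H.hN0
  have h1 := H.low 0 (M * N) (by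
    rw [Nat.zero_add]
    calc H.N0 ≤ 1 * N := by omega
      _ ≤ M * N := Nat.mul_le_mul_right _ hM)
  rw [Nat.sub_zero] at h1
  have h2 : dist (H.p (M * N)) (H.p 0) ≤ ∑ i ∈ Finset.range M, dist (H.p (i * N)) (H.p ((i+1) * N)) := by
    have := dist_le_range_sum_dist (fun i => H.p (i * N)) M
    simp only [Nat.zero_mul] at this
    rw [dist_comm]; exact this
  have h3 : ∑ i ∈ Finset.range M, dist (H.p (i * N)) (H.p ((i+1) * N)) ≤
      ∑ _i ∈ Finset.range M, H.B * f N := by
    apply Finset.sum_le_sum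
    intro i _
    have := H.up (i * N) ((i+1) * N) (by rw [Nat.add_mul]; omega)
    rw [dist_comm]
    rw [show (i+1) * N - i * N = N by rw [Nat.add_mul]; omega] at this
    exact this
  rw [Finset.sum_const, Finset.card_range, nsmul_eq_mul] at h3
  have h4 := h1.trans (h2.trans h3)
  have hA := H.hA
  rw [show H.B / H.A * M * f N = (M * (H.B * f N)) / H.A by ring, le_div_iff₀ hA]
  linarith

/-- some coordinate carries a fraction of the distance -/
theorem exists_coord {k : ℕ} (hk : 0 < k) (x y : EuclideanSpace ℝ (Fin k)) :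
    ∃ c, dist x y ≤ k * |x c - y c| := by
  have : NeZero k := ⟨by omega⟩
  obtain ⟨c, _, hc⟩ := Finset.exists_max_image Finset.univ (fun c => |x c - y c|)
    ⟨(0 : Fin k), Finset.mem_univ _⟩
  exact ⟨c, dist_le_of_coord x y (abs_nonneg _) (fun c' => hc c' (Finset.mem_univ _))⟩

/-- the packing bound -/
theorem packing (hk : 1 ≤ k) : ∃ κ > 0, ∀ N, H.N0 ≤ N → ∀ t : ℕ, 1 ≤ t →
    κ * (t:ℝ) ^ (1 / (k:ℝ)) * f N ≤ f (t * N) := by
  have hA := H.hA
  have hB := H.hB
  have hAB := H.A_le_B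
  have hN0 := H.hN0
  have hk0 : (0:ℝ) < k := by positivity
  have hk1 : (1:ℝ) ≤ k := by exact_mod_cast hk
  set κ' : ℝ := 4 * k * H.B / H.A + 3 with hκ'
  have hκ'0 : 0 < κ' := by positivity
  refine ⟨1 / κ', by positivity, ?_⟩
  intro N hN t ht
  have hN1 : 1 ≤ N := by omega
  have hfN := H.pos N hN1
  have htN : N ≤ t * N := by
    calc N = 1 * N := by omega
      _ ≤ t * N := Nat.mul_le_mul_right _ ht
  have hfle : f N ≤ f (t * N) := H.mono _ _ hN1 htN
  set δ : ℝ := H.A * f N / (2 * k) with hδ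
  have hδ0 : 0 < δ := by positivity
  let z : ℕ → Fin k → ℤ := fun i c => ⌊H.p (i * N) c / δ⌋
  set ρ : ℝ := f (t * N) / f N with hρ
  have hρ1 : 1 ≤ ρ := by rw [hρ, one_le_div hfN]; exact hfle
  set R : ℕ := ⌊H.B * f (t * N) / δ⌋₊ + 1 with hR
  have hsep : ∀ i i', i < i' → H.A * f N ≤ dist (H.p (i' * N)) (H.p (i * N)) := by
    intro i i' hi
    have e : N ≤ i' * N - i * N := by
      have : (i + 1) * N ≤ i' * N := Nat.mul_le_mul_right _ hi
      rw [Nat.add_mul] at this; omega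
    have h1 := H.low (i * N) (i' * N) (by omega)
    have h2 := H.mono N (i' * N - i * N) hN1 e
    have h3 := mul_le_mul_of_nonneg_left h2 hA.le
    linarith
  have hinj : ∀ i i', z i = z i' → i = i' := by
    have key : ∀ i i', i < i' → z i ≠ z i' := by
      intro i i' hi hz
      have h1 := hsep i i' hi
      have h2 := dist_le_of_coord (H.p (i' * N)) (H.p (i * N)) (D := δ) hδ0.le (by
        intro c
        have hc : ⌊H.p (i * N) c / δ⌋ = ⌊H.p (i' * N) c / δ⌋ := congrFun hz c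
        have := Int.abs_sub_lt_one_of_floor_eq_floor hc
        rw [← sub_div, abs_div, abs_of_pos hδ0, div_lt_one hδ0, abs_sub_comm] at this
        exact this.le)
      have h3 : (k:ℝ) * δ = H.A * f N / 2 := by rw [hδ]; field_simp
      have h4 : 0 < H.A * f N := by positivity
      linarith
    intro i i' h
    rcases lt_trichotomy i i' with h1 | h1 | h1
    · exact absurd h (key _ _ h1)
    · exact h1
    · exact absurd h.symm (key _ _ h1)
  have hbox : ∀ i, i ≤ t → ∀ c, |z i c - z 0 c| ≤ R := by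
    intro i hi c
    rcases Nat.eq_zero_or_pos i with h0 | h0
    · subst h0; simp
    · have e : N ≤ i * N := by
        calc N = 1 * N := by omega
          _ ≤ i * N := Nat.mul_le_mul_right _ h0
      have h1 := H.up 0 (i * N) (by omega)
      rw [Nat.sub_zero] at h1
      have h2 := H.mono (i * N) (t * N) (by omega) (Nat.mul_le_mul_right _ hi)
      have h3 := coord_le_dist (H.p (i * N)) (H.p 0) c
      have h4 : |H.p (i * N) c / δ - H.p 0 c / δ| ≤ H.B * f (t * N) / δ := by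
        rw [← sub_div, abs_div, abs_of_pos hδ0]
        apply div_le_div_of_nonneg_right _ hδ0.le
        have := mul_le_mul_of_nonneg_left h2 hB.le
        linarith
      have h5 : (|z i c - z 0 c| : ℝ) < H.B * f (t * N) / δ + 1 := by
        simp only [z, Nat.zero_mul]
        have a1 := Int.floor_le (H.p (i * N) c / δ)
        have a2 := Int.lt_floor_add_one (H.p (i * N) c / δ)
        have a3 := Int.floor_le (H.p 0 c / δ)
        have a4 := Int.lt_floor_add_one (H.p 0 c / δ)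
        rw [abs_le] at h4
        rw [abs_lt]
        constructor <;> linarith
      have h6 : H.B * f (t * N) / δ < ⌊H.B * f (t * N) / δ⌋₊ + 1 := Nat.lt_floor_add_one _
      have h7 : ((|z i c - z 0 c| : ℤ) : ℝ) < ((R + 1 : ℕ) : ℝ) := by
        rw [hR]; push_cast; linarith
      have h8 : |z i c - z 0 c| < ((R + 1 : ℕ) : ℤ) := by exact_mod_cast h7
      push_cast at h8
      linarith
  have hcard : t + 1 ≤ (2 * R + 1) ^ k := by
    have h1 : (Finset.range (t+1)).card ≤ (Finset.Icc (fun c => z 0 c - (R:ℤ))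
        (fun c => z 0 c + (R:ℤ))).card := by
      apply Finset.card_le_card_of_injOn z
      · intro i hi
        simp only [Finset.coe_range, Set.mem_Iio] at hi
        rw [Finset.mem_coe, Finset.mem_Icc]
        constructor
        · intro c
          have := abs_le.mp (hbox i (by omega) c)
          simp only []
          linarith
        · intro c
          have := abs_le.mp (hbox i (by omega) c)
          simp only []
          linarith
      · intro i _ i' _ h
        exact hinj i i' h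
    rw [Finset.card_range, Pi.card_Icc] at h1
    refine h1.trans (le_of_eq ?_)
    rw [Finset.prod_congr rfl (g := fun _ => 2 * R + 1)]
    · simp
    · intro c _
      rw [Int.card_Icc]
      omega
  -- from the count to the bound
  have hRb : ((2 * R + 1 : ℕ) : ℝ) ≤ κ' * ρ := by
    have hftN : 0 < f (t * N) := by linarith
    have h1 : (⌊H.B * f (t * N) / δ⌋₊ : ℝ) ≤ H.B * f (t * N) / δ :=
      Nat.floor_le (by positivity)
    have h2 : H.B * f (t * N) / δ = 2 * k * (H.B / H.A) * ρ := by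
      rw [hδ, hρ]; field_simp
    have h1 := h1.trans_eq h2
    rw [hR]
    push_cast
    rw [hκ']
    have h3 : 2 * (⌊H.B * f (t * N) / δ⌋₊ : ℝ) ≤ 4 * k * H.B / H.A * ρ := by
      have : 4 * k * H.B / H.A * ρ = 2 * (2 * k * (H.B / H.A) * ρ) := by ring
      rw [this]; linarith
    nlinarith
  have ht' : (t:ℝ) ≤ (κ' * ρ) ^ k := by
    have h1 : ((t + 1 : ℕ) : ℝ) ≤ (((2 * R + 1) ^ k : ℕ) : ℝ) := by exact_mod_cast hcard
    have h2 : (((2 * R + 1) ^ k : ℕ) : ℝ) ≤ (κ' * ρ) ^ k := by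
      rw [Nat.cast_pow]
      exact pow_le_pow_left₀ (by positivity) hRb k
    push_cast at h1
    have := h1.trans (by exact_mod_cast h2)
    linarith
  have ht'' : (t:ℝ) ^ (1 / (k:ℝ)) ≤ κ' * ρ := by
    have h1 : 0 ≤ κ' * ρ := by positivity
    calc (t:ℝ) ^ (1 / (k:ℝ)) ≤ ((κ' * ρ) ^ k) ^ (1 / (k:ℝ)) :=
          Real.rpow_le_rpow (by positivity) ht' (by positivity)
      _ = κ' * ρ := by
          rw [one_div]; exact Real.pow_rpow_inv_natCast h1 (by omega)
  rw [hρ] at ht''
  rw [show 1 / κ' * (t:ℝ) ^ (1 / (k:ℝ)) * f N = (t:ℝ) ^ (1 / (k:ℝ)) * (f N / κ') by ring]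
  calc (t:ℝ) ^ (1 / (k:ℝ)) * (f N / κ') ≤ (κ' * (f (t * N) / f N)) * (f N / κ') :=
        mul_le_mul_of_nonneg_right ht'' (by positivity)
    _ = f (t * N) := by field_simp

/-- a window with the critical rate is short -/
theorem window (hk : 2 ≤ k) {c1 C1 : ℝ} (hc1 : 0 < c1) (hC1 : 0 < C1) :
    ∃ M : ℕ, 2 ≤ M ∧ ∀ N, H.N0 ≤ N →
      (∀ t : ℕ, 1 ≤ t → t ≤ M → c1 * (t:ℝ) ^ (1 / (k:ℝ)) * f N ≤ f (t * N)) →
      (∀ t : ℕ, 1 ≤ t → t ≤ M → f (t * N) ≤ C1 * (t:ℝ) ^ (1 / (k:ℝ)) * f N) → False := by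
  have hA := H.hA
  have hB := H.hB
  have hN0 := H.hN0
  have hk0 : (0:ℝ) < k := by positivity
  have hkne : k ≠ 0 := by omega
  set μ : ℝ := 2 * k / (H.A * c1) with hμ
  have hμ0 : 0 < μ := by positivity
  set b : ℕ := ⌈(μ * H.B * C1 + 1) ^ k⌉₊ with hb
  have hb1 : 1 ≤ b := by
    rw [hb]; exact Nat.one_le_ceil_iff.mpr (by positivity)
  obtain ⟨M, hM2, hM⟩ := no_sequence hk b hb1
  refine ⟨M, hM2, ?_⟩
  intro N hN hlo hup
  have hN1 : 1 ≤ N := by omega
  have hfN := H.pos N hN1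
  let z : ℕ → Fin k → ℤ := fun i c => ⌊μ * H.p (i * N) c / f N⌋
  have hroot : ∀ t : ℕ, ((t:ℝ) ^ (1 / (k:ℝ))) ^ k = t := by
    intro t
    rw [one_div]
    exact Real.rpow_inv_natCast_pow (by positivity) hkne
  have hroot1 : ∀ t : ℕ, 1 ≤ t → 1 ≤ (t:ℝ) ^ (1 / (k:ℝ)) := by
    intro t ht
    apply Real.one_le_rpow (by exact_mod_cast ht) (by positivity)
  apply hM z
  · intro i i' hii hi' c
    have htime : i' * N - i * N = (i' - i) * N := by rw [Nat.sub_mul]
    have hle : N ≤ (i' - i) * N := by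
      calc N = 1 * N := by omega
        _ ≤ (i' - i) * N := Nat.mul_le_mul_right _ (by omega)
    have hmul : (i' - i) * N + i * N = i' * N := by rw [← Nat.add_mul]; congr 1; omega
    have h1 := H.up (i * N) (i' * N) (by omega)
    rw [htime] at h1
    have h2 := hup (i' - i) (by omega) (by omega)
    have h3 := coord_le_dist (H.p (i' * N)) (H.p (i * N)) c
    set T : ℝ := ((i' - i : ℕ) : ℝ) ^ (1 / (k:ℝ)) with hT
    have hT1 : 1 ≤ T := hroot1 _ (by omega)
    have h4 : |H.p (i' * N) c - H.p (i * N) c| ≤ H.B * (C1 * T * f N) := by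
      have := mul_le_mul_of_nonneg_left h2 hB.le
      linarith
    have h5 : |μ * H.p (i' * N) c / f N - μ * H.p (i * N) c / f N| ≤ μ * H.B * C1 * T := by
      rw [show μ * H.p (i' * N) c / f N - μ * H.p (i * N) c / f N =
        μ / f N * (H.p (i' * N) c - H.p (i * N) c) by ring, abs_mul,
        abs_of_pos (by positivity : (0:ℝ) < μ / f N)]
      calc μ / f N * |H.p (i' * N) c - H.p (i * N) c| ≤ μ / f N * (H.B * (C1 * T * f N)) :=
            mul_le_mul_of_nonneg_left h4 (by positivity)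
        _ = μ * H.B * C1 * T := by field_simp
    have h6 : ((|z i' c - z i c| : ℤ) : ℝ) ≤ (μ * H.B * C1 + 1) * T := by
      have : ((|z i' c - z i c| : ℤ) : ℝ) ≤ μ * H.B * C1 * T + 1 := by
        simp only [z]
        push_cast
        have a1 := Int.floor_le (μ * H.p (i' * N) c / f N)
        have a2 := Int.lt_floor_add_one (μ * H.p (i' * N) c / f N)
        have a3 := Int.floor_le (μ * H.p (i * N) c / f N)
        have a4 := Int.lt_floor_add_one (μ * H.p (i * N) c / f N)
        rw [abs_le] at h5 ⊢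
        constructor <;> linarith
      nlinarith
    have h7 : ((|z i' c - z i c| : ℤ) : ℝ) ^ k ≤ b * ((i' - i : ℕ) : ℝ) := by
      calc ((|z i' c - z i c| : ℤ) : ℝ) ^ k ≤ ((μ * H.B * C1 + 1) * T) ^ k :=
            pow_le_pow_left₀ (by positivity) h6 k
        _ = (μ * H.B * C1 + 1) ^ k * ((i' - i : ℕ) : ℝ) := by rw [mul_pow, hT, hroot]
        _ ≤ b * ((i' - i : ℕ) : ℝ) := by
            apply mul_le_mul_of_nonneg_right _ (by positivity)
            rw [hb]; exact Nat.le_ceil _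
    rw [Nat.cast_sub hii.le] at h7
    exact_mod_cast h7
  · intro i i' hii hi'
    have htime : i' * N - i * N = (i' - i) * N := by rw [Nat.sub_mul]
    have hle : N ≤ (i' - i) * N := by
      calc N = 1 * N := by omega
        _ ≤ (i' - i) * N := Nat.mul_le_mul_right _ (by omega)
    have hmul : (i' - i) * N + i * N = i' * N := by rw [← Nat.add_mul]; congr 1; omega
    have h1 := H.low (i * N) (i' * N) (by omega)
    rw [htime] at h1
    have h2 := hlo (i' - i) (by omega) (by omega)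
    obtain ⟨c, hc⟩ := exists_coord (by omega : 0 < k) (H.p (i' * N)) (H.p (i * N))
    refine ⟨c, ?_⟩
    set T : ℝ := ((i' - i : ℕ) : ℝ) ^ (1 / (k:ℝ)) with hT
    have hT1 : 1 ≤ T := hroot1 _ (by omega)
    have h4 : H.A * (c1 * T * f N) ≤ k * |H.p (i' * N) c - H.p (i * N) c| := by
      have := mul_le_mul_of_nonneg_left h2 hA.le
      linarith
    have h5 : 2 * T ≤ |μ * H.p (i' * N) c / f N - μ * H.p (i * N) c / f N| := by
      rw [show μ * H.p (i' * N) c / f N - μ * H.p (i * N) c / f N =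
        μ / f N * (H.p (i' * N) c - H.p (i * N) c) by ring, abs_mul,
        abs_of_pos (by positivity : (0:ℝ) < μ / f N)]
      calc 2 * T = (2 / (H.A * c1) / f N) * (H.A * (c1 * T * f N)) := by field_simp
        _ ≤ (2 / (H.A * c1) / f N) * (k * |H.p (i' * N) c - H.p (i * N) c|) :=
            mul_le_mul_of_nonneg_left h4 (by positivity)
        _ = μ / f N * |H.p (i' * N) c - H.p (i * N) c| := by rw [hμ]; ring
    have h6 : T ≤ ((|z i' c - z i c| : ℤ) : ℝ) := by
      simp only [z]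
      push_cast
      have a1 := Int.floor_le (μ * H.p (i' * N) c / f N)
      have a2 := Int.lt_floor_add_one (μ * H.p (i' * N) c / f N)
      have a3 := Int.floor_le (μ * H.p (i * N) c / f N)
      have a4 := Int.lt_floor_add_one (μ * H.p (i * N) c / f N)
      rw [le_abs] at h5 ⊢
      rcases h5 with h5 | h5
      · left; linarith
      · right; linarith
    have h7 : ((i' - i : ℕ) : ℝ) ≤ ((|z i' c - z i c| : ℤ) : ℝ) ^ k := by
      calc ((i' - i : ℕ) : ℝ) = T ^ k := by rw [hT, hroot]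
        _ ≤ _ := pow_le_pow_left₀ (by positivity) h6 k
    rw [Nat.cast_sub hii.le] at h7
    exact_mod_cast h7

/-- necessity: the lower index is bigger than `1 / k` -/
theorem index (hk : 2 ≤ k) : ∃ α : ℝ, 1 / (k:ℝ) < α ∧ ∃ c > 0, ∀ N, H.N0 ≤ N → ∀ M : ℕ, 1 ≤ M →
    c * (M:ℝ) ^ α * f N ≤ f (M * N) := by
  have hN0 := H.hN0
  have hk0 : (0:ℝ) < k := by positivity
  obtain ⟨κ, hκ, hpack⟩ := H.packing (by omega)
  obtain ⟨M0, hM2, hM⟩ := H.window hk (c1 := κ) (C1 := 4 / κ) hκ (by positivity)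
  have hM0r : (1:ℝ) < M0 := by exact_mod_cast hM2
  have hM0pos : (0:ℝ) < M0 := by linarith
  have hgrow : ∀ N, H.N0 ≤ N → 2 * (M0:ℝ) ^ (1 / (k:ℝ)) * f N ≤ f (M0 * N) := by
    intro N hN
    by_contra hcon
    push Not at hcon
    have hN1 : 1 ≤ N := by omega
    have hfN := H.pos N hN1
    apply hM N hN
    · intro t ht _
      exact hpack N hN t ht
    · intro t ht htM
      have htN : N ≤ t * N := by
        calc N = 1 * N := by omega
          _ ≤ t * N := Nat.mul_le_mul_right _ ht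
      have hftN := H.pos (t * N) (by omega)
      set s := M0 / t with hs
      have hs1 : 1 ≤ s := by
        rw [hs]; exact (Nat.one_le_div_iff (by omega)).mpr htM
      have h1 := hpack (t * N) (by omega) s hs1
      have h2 : f (s * (t * N)) ≤ f (M0 * N) := by
        apply H.mono
        · calc 1 ≤ 1 * (t * N) := by omega
            _ ≤ s * (t * N) := Nat.mul_le_mul_right _ hs1
        · rw [← mul_assoc]
          apply Nat.mul_le_mul_right
          rw [hs]; exact Nat.div_mul_le_self _ _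
      have h3 : (M0:ℝ) ≤ 2 * s * t := by
        have e := Nat.div_add_mod M0 t
        have e2 := Nat.mod_lt M0 (show 0 < t by omega)
        have e3 : t * 1 ≤ t * s := Nat.mul_le_mul_left _ hs1
        have : M0 ≤ 2 * s * t := by
          calc M0 = t * (M0 / t) + M0 % t := e.symm
            _ ≤ t * s + t * s := by rw [← hs]; omega
            _ = 2 * s * t := by ring
        exact_mod_cast this
      have h4 : (M0:ℝ) ^ (1 / (k:ℝ)) ≤ 2 * (s:ℝ) ^ (1 / (k:ℝ)) * (t:ℝ) ^ (1 / (k:ℝ)) := by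
        calc (M0:ℝ) ^ (1 / (k:ℝ)) ≤ (2 * s * t : ℝ) ^ (1 / (k:ℝ)) :=
              Real.rpow_le_rpow hM0pos.le h3 (by positivity)
          _ = (2:ℝ) ^ (1 / (k:ℝ)) * (s:ℝ) ^ (1 / (k:ℝ)) * (t:ℝ) ^ (1 / (k:ℝ)) := by
              rw [Real.mul_rpow (by positivity) (by positivity),
                Real.mul_rpow (by positivity) (by positivity)]
          _ ≤ 2 * (s:ℝ) ^ (1 / (k:ℝ)) * (t:ℝ) ^ (1 / (k:ℝ)) := by
              have : (2:ℝ) ^ (1 / (k:ℝ)) ≤ 2 := by
                calc (2:ℝ) ^ (1 / (k:ℝ)) ≤ (2:ℝ) ^ (1:ℝ) := by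
                      apply Real.rpow_le_rpow_of_exponent_le (by norm_num)
                      rw [div_le_one hk0]
                      exact_mod_cast (by omega : 1 ≤ k)
                  _ = 2 := by norm_num
              apply mul_le_mul_of_nonneg_right _ (by positivity)
              exact mul_le_mul_of_nonneg_right this (by positivity)
      have hspos : 0 < (s:ℝ) ^ (1 / (k:ℝ)) := by
        apply Real.rpow_pos_of_pos; exact_mod_cast hs1
      have h5 : κ * (s:ℝ) ^ (1 / (k:ℝ)) * f (t * N) ≤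
          κ * (s:ℝ) ^ (1 / (k:ℝ)) * (4 / κ * (t:ℝ) ^ (1 / (k:ℝ)) * f N) := by
        calc κ * (s:ℝ) ^ (1 / (k:ℝ)) * f (t * N) ≤ f (M0 * N) := h1.trans h2
          _ ≤ 2 * (M0:ℝ) ^ (1 / (k:ℝ)) * f N := hcon.le
          _ ≤ 2 * (2 * (s:ℝ) ^ (1 / (k:ℝ)) * (t:ℝ) ^ (1 / (k:ℝ))) * f N := by
              apply mul_le_mul_of_nonneg_right _ hfN.le
              linarith
          _ = κ * (s:ℝ) ^ (1 / (k:ℝ)) * (4 / κ * (t:ℝ) ^ (1 / (k:ℝ)) * f N) := by
              field_simp; ring
      exact le_of_mul_le_mul_left h5 (by positivity)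
  -- iterate
  set β : ℝ := 1 / (k:ℝ) + Real.log 2 / Real.log M0 with hβ
  have hlog : 0 < Real.log M0 := Real.log_pos hM0r
  have hβ1 : 1 / (k:ℝ) < β := by
    rw [hβ]
    have : 0 < Real.log 2 / Real.log M0 := div_pos (Real.log_pos (by norm_num)) hlog
    linarith
  have hβ0 : 0 < β := lt_trans (by positivity) hβ1
  have hM0β : (M0:ℝ) ^ β = 2 * (M0:ℝ) ^ (1 / (k:ℝ)) := by
    rw [hβ, Real.rpow_add hM0pos, mul_comm]
    congr 1
    rw [Real.rpow_def_of_pos hM0pos, mul_div_cancel₀ _ hlog.ne', Real.exp_log (by norm_num)]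
  refine ⟨β, hβ1, (M0:ℝ) ^ (-β), Real.rpow_pos_of_pos hM0pos _, ?_⟩
  intro N hN M hM1
  have hN1 : 1 ≤ N := by omega
  have hfN := H.pos N hN1
  have hiter : ∀ j : ℕ, ((M0:ℝ) ^ β) ^ j * f N ≤ f (M0 ^ j * N) := by
    intro j
    induction j with
    | zero => simp
    | succ j ih =>
      have hle : N ≤ M0 ^ j * N := by
        calc N = 1 * N := by omega
          _ ≤ M0 ^ j * N := Nat.mul_le_mul_right _ (Nat.one_le_pow _ _ (by omega))
      have h1 := hgrow (M0 ^ j * N) (by omega)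
      rw [← hM0β] at h1
      rw [show M0 ^ (j+1) * N = M0 * (M0 ^ j * N) by ring]
      calc ((M0:ℝ) ^ β) ^ (j+1) * f N = (M0:ℝ) ^ β * (((M0:ℝ) ^ β) ^ j * f N) := by ring
        _ ≤ (M0:ℝ) ^ β * f (M0 ^ j * N) := mul_le_mul_of_nonneg_left ih (by positivity)
        _ ≤ _ := h1
  set j := Nat.log M0 M with hj
  have hj1 : M0 ^ j ≤ M := Nat.pow_log_le_self M0 (by omega)
  have hj2 : M < M0 ^ (j+1) := Nat.lt_pow_succ_log_self hM2 M
  have h1 : f (M0 ^ j * N) ≤ f (M * N) := by
    apply H.mono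
    · calc 1 ≤ 1 * N := by omega
        _ ≤ M0 ^ j * N := Nat.mul_le_mul_right _ (Nat.one_le_pow _ _ (by omega))
    · exact Nat.mul_le_mul_right _ hj1
  have h2 : (M0:ℝ) ^ (-β) * (M:ℝ) ^ β ≤ ((M0:ℝ) ^ β) ^ j := by
    have h3 : (M:ℝ) ≤ (M0:ℝ) ^ (j+1) := by exact_mod_cast hj2.le
    calc (M0:ℝ) ^ (-β) * (M:ℝ) ^ β ≤ (M0:ℝ) ^ (-β) * ((M0:ℝ) ^ (j+1)) ^ β := by
          apply mul_le_mul_of_nonneg_left _ (by positivity)
          exact Real.rpow_le_rpow (by positivity) h3 hβ0.le
      _ = ((M0:ℝ) ^ β) ^ j := by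
          rw [← Real.rpow_natCast (M0:ℝ) (j+1), ← Real.rpow_mul hM0pos.le,
            ← Real.rpow_add hM0pos, ← Real.rpow_natCast ((M0:ℝ) ^ β) j,
            ← Real.rpow_mul hM0pos.le]
          congr 1
          push_cast; ring
  calc (M0:ℝ) ^ (-β) * (M:ℝ) ^ β * f N ≤ ((M0:ℝ) ^ β) ^ j * f N :=
        mul_le_mul_of_nonneg_right h2 hfN.le
    _ ≤ f (M0 ^ j * N) := hiter j
    _ ≤ f (M * N) := h1

end Data

end Q184.Rate
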