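import Pool.Agent.Q184.Rate.Geo

/-!
Self-avoiding lattice paths: Hamiltonian paths of cubes and the comb paths.
-/

namespace Q184.Rate

variable {ι : Type*} [DecidableEq ι]

/-- a unit step of the lattice -/
def UStep (x y : ι → ℤ) : Prop := ∃ a, ∃ σ : ℤ, (σ = 1 ∨ σ = -1) ∧ y = x + Pi.single a σ

theorem UStep.symm {x y : ι → ℤ} (h : UStep x y) : UStep y x := by
  obtain ⟨a, σ, h1, h2⟩ := h
  refine ⟨a, -σ, ?_, ?_⟩
  · rcases h1 with h | h <;> subst h <;> simp
  · subst h2
    funext c
    by_cases hc : c = a
    · subst hc; simp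
    · simp [Pi.single_eq_of_ne hc]

theorem UStep.add {x y : ι → ℤ} (h : UStep x y) (z : ι → ℤ) : UStep (z + x) (z + y) := by
  obtain ⟨a, σ, h1, h2⟩ := h
  exact ⟨a, σ, h1, by rw [h2, add_assoc]⟩

/-- the layered path -/
def layer (a : ι) (m : ℕ) (P : ℕ → ι → ℤ) (t : ℕ) : ι → ℤ :=
  Pi.single a ((t / m : ℕ) : ℤ) + P (if Even (t / m) then t % m else m - 1 - t % m)

/-- a path through a box: `m` vertices with nonnegative coordinates below `w`, supported on `s` -/
structure BoxPath (s : Finset ι) (w m : ℕ) (P : ℕ → ι → ℤ) : Prop where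
  pos : 0 < m
  zero : P 0 = 0
  step : ∀ i, i + 1 < m → UStep (P i) (P (i+1))
  inj : ∀ i j, i < m → j < m → P i = P j → i = j
  nonneg : ∀ i, i < m → ∀ c, 0 ≤ P i c
  lt : ∀ i, i < m → ∀ c, P i c < w
  supp : ∀ i, i < m → ∀ c, c ∉ s → P i c = 0

theorem layer_idx {m : ℕ} (hm : 0 < m) (t : ℕ) :
    (if Even (t / m) then t % m else m - 1 - t % m) < m := by
  have := Nat.mod_lt t hm
  split_ifs <;> omega

theorem BoxPath.layered {s : Finset ι} {w m n : ℕ} {P : ℕ → ι → ℤ} (h : BoxPath s w m P)
    {a : ι} (ha : a ∉ s) (hn : 0 < n) (hnw : n ≤ w) :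
    BoxPath (insert a s) w (n * m) (layer a m P) := by
  have hm := h.pos
  have hidx := layer_idx hm
  have hPa : ∀ i, i < m → P i a = 0 := fun i hi => h.supp i hi a ha
  have hval : ∀ t, layer a m P t a = ((t / m : ℕ) : ℤ) := by
    intro t
    simp only [layer, Pi.add_apply, Pi.single_eq_same]
    rw [hPa _ (hidx t)]; simp
  have hval' : ∀ t c, c ≠ a → layer a m P t c =
      P (if Even (t / m) then t % m else m - 1 - t % m) c := by
    intro t c hc
    simp only [layer, Pi.add_apply]
    rw [Pi.single_eq_of_ne hc]; simp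
  refine ⟨Nat.mul_pos hn hm, ?_, ?_, ?_, ?_, ?_, ?_⟩
  · simp [layer, h.zero]
  · intro t ht
    rcases Nat.lt_or_ge (t % m + 1) m with h1 | h1
    · -- same layer
      have hd : (t + 1) / m = t / m := by
        rw [Nat.succ_div]
        have : ¬ m ∣ t + 1 := by
          intro hdvd
          have h2 : (t + 1) % m = 0 := Nat.mod_eq_zero_of_dvd hdvd
          rw [Nat.add_mod] at h2
          have h3 : m ≠ 1 := by intro h; subst h; omega
          have h4 : 1 % m = 1 := Nat.mod_eq_of_lt (by omega)
          rw [h4, Nat.mod_eq_of_lt h1] at h2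
          omega
        simp [this]
      have hmod : (t + 1) % m = t % m + 1 := by
        have e1 := Nat.div_add_mod t m
        have e2 := Nat.div_add_mod (t+1) m
        rw [hd] at e2; omega
      simp only [layer, hd, hmod]
      apply UStep.add
      split_ifs with he
      · exact h.step _ h1
      · have e : m - 1 - t % m = (m - 1 - (t % m + 1)) + 1 := by omega
        rw [e]
        apply UStep.symm
        apply h.step
        omega
    · -- next layer
      have hlt := Nat.mod_lt t hm
      have hmod' : t % m = m - 1 := by omega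
      have e1 := Nat.div_add_mod t m
      have hd : (t + 1) / m = t / m + 1 := by
        have : t + 1 = m * (t / m + 1) := by rw [Nat.mul_add]; omega
        rw [this, Nat.mul_div_cancel_left _ hm]
      have hmod : (t + 1) % m = 0 := by
        have : t + 1 = m * (t / m + 1) := by rw [Nat.mul_add]; omega
        rw [this]; simp
      refine ⟨a, 1, Or.inl rfl, ?_⟩
      simp only [layer, hd, hmod, hmod']
      have : (if Even (t / m + 1) then 0 else m - 1 - 0) = (if Even (t / m) then m - 1 else m - 1 - (m - 1)) := by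
        by_cases he : Even (t / m)
        · have : ¬ Even (t / m + 1) := by
            rw [Nat.even_add_one]; simpa using he
          simp [he, this]
        · have : Even (t / m + 1) := by
            rw [Nat.even_add_one]; simpa using he
          simp [he, this]
      rw [this]
      push_cast
      rw [Pi.single_add]
      abel
  · intro i j hi hj hij
    have e1 : i / m = j / m := by
      have := congrFun hij a
      rw [hval, hval] at this
      exact_mod_cast this
    have e2 : (if Even (i / m) then i % m else m - 1 - i % m) =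
        (if Even (j / m) then j % m else m - 1 - j % m) := by
      apply h.inj _ _ (hidx i) (hidx j)
      funext c
      by_cases hc : c = a
      · subst hc; rw [hPa _ (hidx i), hPa _ (hidx j)]
      · have := congrFun hij c
        rw [hval' _ _ hc, hval' _ _ hc] at this
        exact this
    have e3 : i % m = j % m := by
      rw [e1] at e2
      have := Nat.mod_lt i hm
      have := Nat.mod_lt j hm
      split_ifs at e2 <;> omega
    rw [← Nat.div_add_mod i m, ← Nat.div_add_mod j m, e1, e3]
  · intro t ht c
    by_cases hc : c = a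
    · subst hc; rw [hval]; positivity
    · rw [hval' _ _ hc]; exact h.nonneg _ (hidx t) c
  · intro t ht c
    by_cases hc : c = a
    · subst hc; rw [hval]
      have : t / m < n := (Nat.div_lt_iff_lt_mul hm).mpr ht
      exact_mod_cast lt_of_lt_of_le this hnw
    · rw [hval' _ _ hc]; exact h.lt _ (hidx t) c
  · intro t ht c hc
    rw [Finset.mem_insert, not_or] at hc
    rw [hval' _ _ hc.1]; exact h.supp _ (hidx t) c hc.2

theorem exists_box (w : ℕ) (hw : 0 < w) (s : Finset ι) :
    ∃ P : ℕ → ι → ℤ, BoxPath s w (w ^ s.card) P := by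
  induction s using Finset.induction_on with
  | empty =>
    refine ⟨fun _ => 0, ?_, rfl, ?_, ?_, ?_, ?_, ?_⟩
    · simp
    · intro i hi; simp at hi
    · intro i j hi hj _; simp at hi hj; omega
    · intro i hi c; simp
    · intro i hi c; simpa using hw
    · intro i hi c hc; simp
  | insert a s ha ih =>
    obtain ⟨P, hP⟩ := ih
    refine ⟨layer a (w ^ s.card) P, ?_⟩
    have := hP.layered ha hw le_rfl
    rw [Finset.card_insert_of_notMem ha, pow_succ, mul_comm]
    exact this

/-- Hamiltonian path of a cube of even side between neighbouring corners -/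
theorem exists_cube [Fintype ι] (a0 : ι) (w : ℕ) (hw : 0 < w) (he : Even w) :
    ∃ P : ℕ → ι → ℤ, BoxPath Finset.univ w (w ^ Fintype.card ι) P ∧
      P (w ^ Fintype.card ι - 1) = Pi.single a0 ((w : ℤ) - 1) := by
  obtain ⟨P, hP⟩ := exists_box w hw (Finset.univ.erase a0)
  have hlay := hP.layered (Finset.notMem_erase a0 _) hw le_rfl
  rw [Finset.insert_erase (Finset.mem_univ a0)] at hlay
  have hc : w * w ^ (Finset.univ.erase a0).card = w ^ Fintype.card ι := by
    rw [← Finset.card_univ, ← Finset.card_erase_add_one (Finset.mem_univ a0), pow_succ, mul_comm]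
  rw [hc] at hlay
  refine ⟨_, hlay, ?_⟩
  set m := w ^ (Finset.univ.erase a0).card with hm
  have hm0 : 0 < m := hP.pos
  have hd : (w ^ Fintype.card ι - 1) / m = w - 1 := by
    rw [← hc]
    have : w * m - 1 = m * (w - 1) + (m - 1) := by
      obtain ⟨w', rfl⟩ : ∃ w', w = w' + 1 := ⟨w - 1, by omega⟩
      simp only [Nat.add_sub_cancel]
      have : (w' + 1) * m = m * w' + m := by ring
      omega
    rw [this, Nat.mul_add_div hm0, Nat.div_eq_of_lt (by omega)]
    simp
  have hmod : (w ^ Fintype.card ι - 1) % m = m - 1 := by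
    have e1 := Nat.div_add_mod (w ^ Fintype.card ι - 1) m
    rw [hd] at e1
    rw [← hc] at e1 ⊢
    obtain ⟨w', rfl⟩ : ∃ w', w = w' + 1 := ⟨w - 1, by omega⟩
    simp only [Nat.add_sub_cancel] at e1
    have : (w' + 1) * m = m * w' + m := by ring
    omega
  have hodd : ¬ Even (w - 1) := by
    obtain ⟨k, hk⟩ := he
    rw [Nat.not_even_iff_odd]
    exact ⟨k - 1, by omega⟩
  simp only [layer, hd, hmod, hodd, if_false]
  rw [Nat.sub_self, hP.zero, add_zero]
  congr 1
  push_cast [Nat.cast_sub hw]
  ring

/-- the paths used in the recursion -/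
structure Good (a0 : ι) (L r : ℕ) (x : ℕ → ι → ℤ) (ax : ℕ → ι) (sg : ℕ → ℤ) : Prop where
  two : 2 ≤ L
  pos : 0 < r
  zero : x 0 = 0
  sgn : ∀ q, sg q = 1 ∨ sg q = -1
  step : ∀ q, q < L → x (q+1) = x q + Pi.single (ax q) (sg q)
  inj : ∀ p q, p ≤ L → q ≤ L → x p = x q → p = q
  ax0 : ax 0 = a0
  sg0 : sg 0 = 1
  last : x (L-1) = Pi.single a0 ((r:ℤ)-1)
  axl : ax (L-1) = a0
  sgl : sg (L-1) = 1
  region : ∀ q, q < L → (∃ n : ℕ, n < r ∧ x q = Pi.single a0 (n:ℤ) ∧ ax q = a0 ∧ sg q = 1) ∨
    (2 ≤ x q a0 ∧ x q a0 + 2 ≤ r ∧ ∀ c, c ≠ a0 →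
      4 * (|x q c| + 1) ≤ x q a0 - 1 ∧ 4 * (|x q c| + 1) ≤ r - 1 - x q a0)

theorem good_straight (a0 : ι) (L : ℕ) (hL : 2 ≤ L) :
    Good a0 L L (fun q => Pi.single a0 (q:ℤ)) (fun _ => a0) (fun _ => 1) := by
  refine ⟨hL, by omega, by simp, fun _ => Or.inl rfl, ?_, ?_, rfl, rfl, ?_, rfl, rfl, ?_⟩
  · intro q hq
    rw [← Pi.single_add]; push_cast; rfl
  · intro p q _ _ h
    have := congrFun h a0
    simpa using this
  · congr 1
    have : 1 ≤ L := by omega
    push_cast [Nat.cast_sub this]; ring
  · intro q hq
    exact Or.inl ⟨q, hq, rfl, rfl, rfl⟩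

theorem exists_comb [Fintype ι] (a0 : ι) (w : ℕ) (hw : 0 < w) (he : Even w) :
    ∃ x ax sg, Good a0 (w ^ Fintype.card ι + 8 * w + 9) (9 * w + 9) x ax sg := by
  obtain ⟨P, hP, hPl⟩ := exists_cube a0 w hw he
  set m := w ^ Fintype.card ι with hm
  have hm0 : 0 < m := hP.pos
  set b := 4 * w + 5 with hb
  -- the path
  let x : ℕ → ι → ℤ := fun q =>
    if q < b then Pi.single a0 (q:ℤ)
    else if q < b + m then Pi.single a0 (b:ℤ) + P (q - b)
    else Pi.single a0 ((q:ℤ) - m + w)
  have hx1 : ∀ q, q ≤ b → x q = Pi.single a0 (q:ℤ) := by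
    intro q hq
    rcases Nat.lt_or_ge q b with h | h
    · simp [x, h]
    · have : q = b := by omega
      subst this
      have h2 : b < b + m := by omega
      simp [x, h2, hP.zero]
  have hx2 : ∀ i, i < m → x (b + i) = Pi.single a0 (b:ℤ) + P i := by
    intro i hi
    have h1 : ¬ (b + i < b) := by omega
    simp [x, h1, hi]
  have hx3 : ∀ q, b + m - 1 ≤ q → x q = Pi.single a0 ((q:ℤ) - m + w) := by
    intro q hq
    rcases Nat.lt_or_ge q (b + m) with h | h
    · have : q = b + (m - 1) := by omega
      subst this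
      rw [hx2 _ (by omega), hPl, ← Pi.single_add]
      congr 1
      push_cast [Nat.cast_sub (show 1 ≤ m from hm0)]
      ring
    · have h1 : ¬ (q < b) := by omega
      have h2 : ¬ (q < b + m) := by omega
      simp [x, h1, h2]
  have hL : m + 8 * w + 9 = b + (m - 1) + b := by omega
  -- steps
  have hstep : ∀ q, UStep (x q) (x (q+1)) := by
    intro q
    rcases Nat.lt_or_ge q b with h | h
    · rw [hx1 q (by omega), hx1 (q+1) (by omega)]
      refine ⟨a0, 1, Or.inl rfl, ?_⟩
      rw [← Pi.single_add]; push_cast; rfl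
    · rcases Nat.lt_or_ge (q + 1) (b + m) with h2 | h2
      · obtain ⟨i, rfl⟩ : ∃ i, q = b + i := ⟨q - b, by omega⟩
        rw [hx2 i (by omega), show b + i + 1 = b + (i+1) from rfl, hx2 (i+1) (by omega)]
        exact (hP.step i (by omega)).add _
      · rw [hx3 q (by omega), hx3 (q+1) (by omega)]
        refine ⟨a0, 1, Or.inl rfl, ?_⟩
        rw [← Pi.single_add]; push_cast; congr 1; ring
  choose ax sg hsg hst using hstep
  -- on the axis part the step is the first axis vector
  have haxis : ∀ q, x (q+1) = x q + Pi.single a0 1 → ax q = a0 ∧ sg q = 1 := by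
    intro q hq
    have h1 := hst q
    rw [hq] at h1
    have h2 : (Pi.single a0 1 : ι → ℤ) = Pi.single (ax q) (sg q) := add_left_cancel h1
    have h3 := congrFun h2 (ax q)
    rw [Pi.single_eq_same] at h3
    by_cases h : ax q = a0
    · rw [h] at h3; simp at h3; exact ⟨h, h3.symm⟩
    · rw [Pi.single_eq_of_ne h] at h3
      rcases hsg q with h' | h' <;> rw [h'] at h3 <;> simp at h3
  have hax1 : ∀ q, q < b → ax q = a0 ∧ sg q = 1 := by
    intro q hq
    apply haxis
    rw [hx1 q (by omega), hx1 (q+1) (by omega), ← Pi.single_add]; push_cast; rfl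
  have hax3 : ∀ q, b + m - 1 ≤ q → ax q = a0 ∧ sg q = 1 := by
    intro q hq
    apply haxis
    rw [hx3 q (by omega), hx3 (q+1) (by omega), ← Pi.single_add]; push_cast; congr 1; ring
  refine ⟨x, ax, sg, ?_, ?_, ?_, hsg, fun q _ => hst q, ?_, (hax1 0 (by omega)).1,
    (hax1 0 (by omega)).2, ?_, (hax3 _ (by omega)).1, (hax3 _ (by omega)).2, ?_⟩
  · omega
  · omega
  · rw [hx1 0 (by omega)]; simp
  · -- injectivity
    -- the first coordinate in the three parts
    have c1 : ∀ q, q < b → x q a0 < b := by
      intro q hq; rw [hx1 q hq.le]; simpa using hq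
    have c2 : ∀ i, i < m → (b:ℤ) ≤ x (b+i) a0 ∧ x (b+i) a0 < b + w := by
      intro i hi
      rw [hx2 i hi]
      have := hP.nonneg i hi a0
      have := hP.lt i hi a0
      simp only [Pi.add_apply, Pi.single_eq_same]
      constructor <;> linarith
    have c3 : ∀ q, b + m ≤ q → (b:ℤ) + w ≤ x q a0 := by
      intro q hq
      rw [hx3 q (by omega)]
      simp only [Pi.single_eq_same]
      have : (b:ℤ) + m ≤ q := by exact_mod_cast hq
      linarith
    intro p q _ _ hpq
    have hpq' := congrFun hpq a0
    -- order the two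
    wlog hle : p ≤ q generalizing p q with H
    · exact (H q p ‹_› ‹_› hpq.symm hpq'.symm (by omega)).symm
    rcases Nat.lt_or_ge p b with hp | hp
    · rcases Nat.lt_or_ge q b with hq | hq
      · rw [hx1 p hp.le, hx1 q hq.le] at hpq'; simpa using hpq'
      · exfalso
        have := c1 p hp
        rcases Nat.lt_or_ge q (b + m) with h | h
        · have := (c2 (q - b) (by omega)).1
          rw [show b + (q - b) = q by omega] at this
          linarith
        · have := c3 q h
          have : (0:ℤ) ≤ w := by positivity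
          linarith
    · rcases Nat.lt_or_ge p (b + m) with hp2 | hp2
      · rcases Nat.lt_or_ge q (b + m) with hq2 | hq2
        · have e1 := hx2 (p - b) (by omega)
          have e2 := hx2 (q - b) (by omega)
          rw [show b + (p - b) = p by omega] at e1
          rw [show b + (q - b) = q by omega] at e2
          rw [e1, e2] at hpq
          have := hP.inj _ _ (by omega) (by omega) (add_left_cancel hpq)
          omega
        · exfalso
          have := (c2 (p - b) (by omega)).2
          rw [show b + (p - b) = p by omega] at this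
          have := c3 q hq2
          linarith
      · rw [hx3 p (by omega), hx3 q (by omega)] at hpq'
        simp only [Pi.single_eq_same] at hpq'
        have : (p:ℤ) = q := by linarith
        exact_mod_cast this
  · rw [hx3 _ (by omega)]
    congr 1
    have : ((m + 8 * w + 9 - 1 : ℕ) : ℤ) = m + 8 * w + 8 := by
      rw [show m + 8 * w + 9 - 1 = m + 8 * w + 8 by omega]; push_cast; ring
    rw [this]; push_cast; ring
  · intro q hq
    rcases Nat.lt_or_ge q b with h | h
    · left
      exact ⟨q, by omega, hx1 q h.le, hax1 q h⟩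
    · rcases Nat.lt_or_ge (q + 1) (b + m) with h2 | h2
      · right
        have e1 := hx2 (q - b) (by omega)
        rw [show b + (q - b) = q by omega] at e1
        have n1 := hP.nonneg (q - b) (by omega) a0
        have n2 := hP.lt (q - b) (by omega) a0
        have e2 : x q a0 = b + P (q - b) a0 := by rw [e1]; simp
        have hbw : (b:ℤ) = 4 * w + 5 := by rw [hb]; push_cast; ring
        refine ⟨by linarith, by push_cast; linarith, ?_⟩
        intro c hc
        have e3 : x q c = P (q - b) c := by rw [e1]; simp [Pi.single_eq_of_ne hc]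
        have n3 := hP.nonneg (q - b) (by omega) c
        have n4 := hP.lt (q - b) (by omega) c
        rw [e3, e2, abs_of_nonneg n3]
        constructor
        · linarith
        · push_cast; linarith
      · left
        refine ⟨q + w - m, by omega, ?_, hax3 q (by omega)⟩
        rw [hx3 q (by omega)]
        congr 1
        rw [Nat.cast_sub (by omega)]; push_cast; ring

end Q184.Rate
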