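import Pool.Agent.Q184.Rate.Path

/-!
The recursion: a path of `L ^ j` steps at every level `j`.
-/

namespace Q184.Rate

variable {ι : Type*} [DecidableEq ι]

/-- a choice of a good path at every level -/
structure Sys (ι : Type*) [DecidableEq ι] where
  a0 : ι
  L : ℕ
  r : ℕ → ℕ
  x : ℕ → ℕ → ι → ℤ
  ax : ℕ → ℕ → ι
  sg : ℕ → ℕ → ℤ
  good : ∀ j, Good a0 L (r j) (x j) (ax j) (sg j)

namespace Sys

variable (K : Sys ι)

/-- the size of the blocks of level `j` -/
def S (j : ℕ) : ℤ := ∏ i ∈ Finset.range j, (K.r i : ℤ)

theorem S_zero : K.S 0 = 1 := by simp [S]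

theorem S_succ (j : ℕ) : K.S (j+1) = K.S j * K.r j := by simp [S, Finset.prod_range_succ]

theorem S_pos (j : ℕ) : 0 < K.S j := by
  apply Finset.prod_pos
  intro i _
  exact_mod_cast (K.good i).pos

theorem two_le : 2 ≤ K.L := (K.good 0).two

theorem L_pos : 0 < K.L := by have := K.two_le; omega

theorem Lpow_pos (j : ℕ) : 0 < K.L ^ j := Nat.pow_pos K.L_pos

theorem S_mono_succ (j : ℕ) : K.S j ≤ K.S (j+1) := by
  rw [K.S_succ]
  have := K.S_pos j
  have h : (1:ℤ) ≤ K.r j := by exact_mod_cast (K.good j).pos
  nlinarith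

theorem S_mono {i j : ℕ} (h : i ≤ j) : K.S i ≤ K.S j := by
  induction h with
  | refl => exact le_rfl
  | step _ ih => exact ih.trans (K.S_mono_succ _)

/-- the map of the block `q` at level `j` -/
def B (j q : ℕ) (u : ι → ℤ) : ι → ℤ :=
  fun c => K.S j * K.x j q c + T K.a0 (K.ax j q) (K.sg j q) u c

/-- the paths -/
def P : ℕ → ℕ → ι → ℤ
  | 0, n => Pi.single K.a0 (n:ℤ)
  | j+1, n => K.B j (n / K.L ^ j) (P j (n % K.L ^ j))

theorem P_zero_right (j : ℕ) : K.P j 0 = 0 := by
  induction j with
  | zero => simp [P]
  | succ j ih =>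
    simp only [P, Nat.zero_div, Nat.zero_mod, ih]
    funext c
    simp [B, (K.good j).zero, T_zero]

theorem x_end (j : ℕ) : K.x j K.L = Pi.single K.a0 (K.r j : ℤ) := by
  have h := K.good j
  have h2 := h.two
  have := h.step (K.L - 1) (by omega)
  rw [show K.L - 1 + 1 = K.L by omega, h.last, h.axl, h.sgl, ← Pi.single_add] at this
  rw [this]; congr 1; ring

theorem B_end {j q : ℕ} (hq : q < K.L) : K.B j q (Pi.single K.a0 (K.S j)) =
    fun c => K.S j * K.x j (q+1) c := by
  funext c
  simp only [B, T_single, (K.good j).step q hq, Pi.add_apply]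
  by_cases hc : c = K.ax j q
  · subst hc; simp; ring
  · simp [Pi.single_eq_of_ne hc]

theorem P_end (j : ℕ) : K.P j (K.L ^ j) = Pi.single K.a0 (K.S j) := by
  cases j with
  | zero => simp [P, S_zero]
  | succ j =>
    have hp := K.Lpow_pos j
    have h1 : K.L ^ (j+1) / K.L ^ j = K.L := by
      rw [pow_succ]; exact Nat.mul_div_cancel_left _ hp
    have h2 : K.L ^ (j+1) % K.L ^ j = 0 := by
      rw [pow_succ]; simp
    simp only [P, h1, h2, P_zero_right]
    funext c
    simp only [B, T_zero, x_end, S_succ]
    by_cases hc : c = K.a0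
    · subst hc; simp
    · simp [Pi.single_eq_of_ne hc]

theorem P_block (j q t : ℕ) (hq : q < K.L) (ht : t ≤ K.L ^ j) :
    K.P (j+1) (q * K.L ^ j + t) = K.B j q (K.P j t) := by
  have hp := K.Lpow_pos j
  rcases Nat.lt_or_ge t (K.L ^ j) with h | h
  · have h1 : (q * K.L ^ j + t) / K.L ^ j = q := by
      rw [mul_comm, Nat.mul_add_div hp, Nat.div_eq_of_lt h]; simp
    have h2 : (q * K.L ^ j + t) % K.L ^ j = t := by
      rw [mul_comm, Nat.mul_add_mod, Nat.mod_eq_of_lt h]
    simp only [P, h1, h2]
  · have ht' : t = K.L ^ j := le_antisymm ht h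
    subst ht'
    have h1 : (q * K.L ^ j + K.L ^ j) / K.L ^ j = q + 1 := by
      rw [← Nat.succ_mul, Nat.mul_div_cancel _ hp]
    have h2 : (q * K.L ^ j + K.L ^ j) % K.L ^ j = 0 := by
      rw [← Nat.succ_mul]; simp
    rw [P_end, K.B_end hq]
    simp only [P, h1, h2, P_zero_right]
    funext c
    simp [B, T_zero]

theorem decomp {j n : ℕ} (hn : n ≤ K.L ^ (j+1)) : ∃ q, q < K.L ∧ ∃ t, t ≤ K.L ^ j ∧
    n = q * K.L ^ j + t := by
  have hp := K.Lpow_pos j
  have hL := K.L_pos
  rcases Nat.lt_or_ge n (K.L ^ (j+1)) with h | h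
  · refine ⟨n / K.L ^ j, ?_, n % K.L ^ j, (Nat.mod_lt _ hp).le, ?_⟩
    · rw [Nat.div_lt_iff_lt_mul hp, mul_comm, ← pow_succ]; exact h
    · rw [mul_comm]; exact (Nat.div_add_mod n _).symm
  · refine ⟨K.L - 1, by omega, K.L ^ j, le_rfl, ?_⟩
    have h' : n = K.L ^ (j+1) := le_antisymm hn h
    rw [h', pow_succ]
    obtain ⟨L', hL'⟩ : ∃ L', K.L = L' + 1 := ⟨K.L - 1, by omega⟩
    rw [show K.L - 1 = L' by omega]
    calc K.L ^ j * K.L = K.L ^ j * (L' + 1) := by rw [← hL']
      _ = L' * K.L ^ j + K.L ^ j := by ring

/-- the first block is a copy of the path of the lower level -/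
theorem P_consist_succ {j n : ℕ} (hn : n ≤ K.L ^ j) : K.P (j+1) n = K.P j n := by
  have := K.P_block j 0 n K.L_pos hn
  rw [Nat.zero_mul, Nat.zero_add] at this
  rw [this]
  funext c
  simp [B, (K.good j).zero, (K.good j).ax0, (K.good j).sg0, T_one]

theorem P_consist {i j n : ℕ} (hij : i ≤ j) (hn : n ≤ K.L ^ i) : K.P j n = K.P i n := by
  induction hij with
  | refl => rfl
  | step h ih =>
    rw [P_consist_succ, ih]
    exact hn.trans (Nat.pow_le_pow_right K.L_pos h)

/-- every path stays in its double cone -/
theorem reg (j : ℕ) : ∀ n, n ≤ K.L ^ j → Reg K.a0 (K.S j) (K.P j n) := by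
  induction j with
  | zero =>
    intro n hn
    simp only [pow_zero] at hn
    have hn0 : (0:ℤ) ≤ n := by positivity
    have hn1 : (n:ℤ) ≤ 1 := by exact_mod_cast hn
    refine ⟨by simp [P], by simpa [P, S_zero] using hn, ?_, ?_⟩
    · intro c hc; simp [P, Pi.single_eq_of_ne hc]
    · intro c hc; simp [P, Pi.single_eq_of_ne hc, S_zero]; exact hn
  | succ j ih =>
    intro n hn
    obtain ⟨q, hq, t, ht, rfl⟩ := K.decomp hn
    rw [K.P_block j q t hq ht, S_succ]
    have hr := ih t ht
    have hS := K.S_pos j
    have hg := K.good j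
    rcases hg.region q hq with ⟨m, hm, hx, ha, hs⟩ | ⟨h1, h2, h3⟩
    · -- on the axis
      have e1 : K.B j q (K.P j t) K.a0 = K.S j * m + K.P j t K.a0 := by
        simp [B, hx, ha, hs, T_one]
      have e2 : ∀ c, c ≠ K.a0 → K.B j q (K.P j t) c = K.P j t c := by
        intro c hc
        simp [B, hx, ha, hs, T_one, Pi.single_eq_of_ne hc]
      have hm0 : (0:ℤ) ≤ m := by positivity
      have hm1 : (m:ℤ) + 1 ≤ K.r j := by exact_mod_cast hm
      have k1 := hr.nonneg
      have k2 := hr.le
      have k3 : K.S j * (m + 1) ≤ K.S j * K.r j := mul_le_mul_of_nonneg_left hm1 hS.le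
      have k4 : 0 ≤ K.S j * m := mul_nonneg hS.le hm0
      refine ⟨by rw [e1]; linarith, by rw [e1]; linarith, ?_, ?_⟩
      · intro c hc
        rw [e1, e2 c hc]
        have := hr.cone c hc
        linarith
      · intro c hc
        rw [e1, e2 c hc]
        have := hr.cone' c hc
        linarith
    · -- in the cube
      have hb : ∀ c, |T K.a0 (K.ax j q) (K.sg j q) (K.P j t) c| ≤ K.S j :=
        fun c => T_abs_le (hg.sgn q) hr c
      have k0 := abs_le.mp (hb K.a0)
      have m1 : K.S j * 2 ≤ K.S j * K.x j q K.a0 := mul_le_mul_of_nonneg_left h1 hS.le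
      have m2 : K.S j * (K.x j q K.a0 + 2) ≤ K.S j * K.r j := mul_le_mul_of_nonneg_left h2 hS.le
      have hlow : K.S j * K.x j q K.a0 - K.S j ≤ K.B j q (K.P j t) K.a0 := by
        simp only [B]; linarith
      have hup : K.B j q (K.P j t) K.a0 ≤ K.S j * K.x j q K.a0 + K.S j := by
        simp only [B]; linarith
      have hcr : ∀ c, |K.B j q (K.P j t) c| ≤ K.S j * (|K.x j q c| + 1) := by
        intro c
        simp only [B]
        calc |K.S j * K.x j q c + T K.a0 (K.ax j q) (K.sg j q) (K.P j t) c|
            ≤ |K.S j * K.x j q c| + |T K.a0 (K.ax j q) (K.sg j q) (K.P j t) c| := abs_add_le _ _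
          _ ≤ K.S j * |K.x j q c| + K.S j := by
              rw [abs_mul, abs_of_pos hS]
              have := hb c
              linarith
          _ = K.S j * (|K.x j q c| + 1) := by ring
      refine ⟨by linarith, by linarith, ?_, ?_⟩
      · intro c hc
        have e1 := hcr c
        have e2 := mul_le_mul_of_nonneg_left (h3 c hc).1 hS.le
        linarith
      · intro c hc
        have e1 := hcr c
        have e2 := mul_le_mul_of_nonneg_left (h3 c hc).2 hS.le
        linarith

/-- first coordinate of the blocks other than the first -/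
theorem first_ge {j q t : ℕ} (hq : q < K.L) (hq1 : 1 ≤ q) (ht : t ≤ K.L ^ j) :
    K.S j ≤ K.B j q (K.P j t) K.a0 := by
  have hr := K.reg j t ht
  have hS := K.S_pos j
  have hg := K.good j
  rcases hg.region q hq with ⟨m, hm, hx, ha, hs⟩ | ⟨h1, h2, h3⟩
  · have hm1 : 1 ≤ m := by
      by_contra h
      have : m = 0 := by omega
      subst this
      have : x K j q = x K j 0 := by rw [hx, hg.zero]; simp
      have := hg.inj q 0 (by omega) (by omega) this
      omega
    have hm1' : (1:ℤ) ≤ m := by exact_mod_cast hm1
    have e1 : K.B j q (K.P j t) K.a0 = K.S j * m + K.P j t K.a0 := by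
      simp [B, hx, ha, hs, T_one]
    rw [e1]
    have := hr.nonneg
    nlinarith
  · have k0 := abs_le.mp (T_abs_le (hg.sgn q) hr (a := K.ax j q) K.a0)
    simp only [B]
    nlinarith

theorem first_le {j q t : ℕ} (hq : q + 1 < K.L) (ht : t ≤ K.L ^ j) :
    K.B j q (K.P j t) K.a0 ≤ K.S (j+1) - K.S j := by
  have hr := K.reg j t ht
  have hS := K.S_pos j
  have hg := K.good j
  rw [S_succ]
  rcases hg.region q (by omega) with ⟨m, hm, hx, ha, hs⟩ | ⟨h1, h2, h3⟩
  · have hm1 : m + 2 ≤ K.r j := by
      by_contra h
      have hm' : m + 1 = K.r j := by omega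
      have : x K j q = x K j (K.L - 1) := by
        rw [hx, hg.last]; congr 1
        have : (m:ℤ) + 1 = K.r j := by exact_mod_cast hm'
        linarith
      have := hg.inj q (K.L - 1) (by omega) (by omega) this
      omega
    have hm1' : (m:ℤ) + 2 ≤ K.r j := by exact_mod_cast hm1
    have e1 : K.B j q (K.P j t) K.a0 = K.S j * m + K.P j t K.a0 := by
      simp [B, hx, ha, hs, T_one]
    rw [e1]
    have := hr.le
    nlinarith
  · have k0 := abs_le.mp (T_abs_le (hg.sgn q) hr (a := K.ax j q) K.a0)
    simp only [B]
    nlinarith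

/-- lower bound for the first coordinate -/
theorem lower0 (j : ℕ) : ∀ n i, n ≤ K.L ^ j → K.L ^ i ≤ n → K.S i ≤ K.P j n K.a0 := by
  induction j with
  | zero =>
    intro n i hn hi
    simp only [pow_zero] at hn
    have : i = 0 := by
      by_contra h
      have := Nat.one_lt_pow h (show 1 < K.L from K.two_le)
      omega
    subst this
    simp only [pow_zero] at hi
    have : n = 1 := by omega
    subst this
    simp [P, S_zero]
  | succ j ih =>
    intro n i hn hi
    have hij : i ≤ j + 1 := by
      by_contra h
      push Not at h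
      have := Nat.pow_lt_pow_right (show 1 < K.L from K.two_le) h
      omega
    rcases Nat.lt_or_ge n (K.L ^ (j+1)) with h | h
    · have hij' : i ≤ j := by
        by_contra h'
        have : i = j + 1 := by omega
        subst this; omega
      obtain ⟨q, hq, t, ht, rfl⟩ := K.decomp hn
      rcases Nat.eq_zero_or_pos q with h0 | h0
      · subst h0
        rw [Nat.zero_mul, Nat.zero_add] at hi ⊢
        rw [K.P_consist_succ ht]
        exact ih t i ht hi
      · rw [K.P_block j q t hq ht]
        exact (K.S_mono hij').trans (K.first_ge hq h0 ht)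
    · have h' : n = K.L ^ (j+1) := le_antisymm hn h
      subst h'
      rw [P_end]
      simp only [Pi.single_eq_same]
      exact K.S_mono hij

theorem P_last_block {j t : ℕ} (ht : t ≤ K.L ^ j) (c : ι) :
    K.P (j+1) ((K.L - 1) * K.L ^ j + t) c =
      (Pi.single K.a0 (K.S (j+1) - K.S j) : ι → ℤ) c + K.P j t c := by
  have hL := K.two_le
  rw [K.P_block j (K.L - 1) t (by omega) ht]
  simp only [B, (K.good j).last, (K.good j).axl, (K.good j).sgl, T_one, S_succ]
  by_cases hc : c = K.a0
  · subst hc; simp; ring
  · simp [Pi.single_eq_of_ne hc]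

/-- lower bound for the distance of the first coordinate from the end -/
theorem lower1 (j : ℕ) : ∀ n i, n ≤ K.L ^ j → K.L ^ i ≤ K.L ^ j - n →
    K.S i ≤ K.S j - K.P j n K.a0 := by
  induction j with
  | zero =>
    intro n i hn hi
    simp only [pow_zero] at hn hi
    have : i = 0 := by
      by_contra h
      have := Nat.one_lt_pow h (show 1 < K.L from K.two_le)
      omega
    subst this
    simp only [pow_zero] at hi
    have : n = 0 := by omega
    subst this
    simp [P, S_zero]
  | succ j ih =>
    intro n i hn hi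
    have hL := K.two_le
    have hij : i ≤ j + 1 := by
      by_contra h
      push Not at h
      have := Nat.pow_lt_pow_right (show 1 < K.L from K.two_le) h
      omega
    rcases Nat.eq_zero_or_pos n with h | h
    · subst h
      rw [P_zero_right]
      simp only [Pi.zero_apply, sub_zero]
      exact K.S_mono hij
    · have hij' : i ≤ j := by
        by_contra h'
        have : i = j + 1 := by omega
        subst this; omega
      obtain ⟨q, hq, t, ht, hnt⟩ := K.decomp hn
      rcases Nat.lt_or_ge (q + 1) K.L with h0 | h0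
      · have hf := K.first_le h0 ht
        subst hnt
        rw [K.P_block j q t hq ht]
        have := K.S_mono hij'
        linarith
      · have hq' : q = K.L - 1 := by omega
        subst hq'
        have e : K.L ^ (j+1) - n = K.L ^ j - t := by
          rw [hnt, pow_succ]
          obtain ⟨L', hL'⟩ : ∃ L', K.L = L' + 1 := ⟨K.L - 1, by omega⟩
          rw [show K.L - 1 = L' by omega]
          have : K.L ^ j * K.L = K.L ^ j * (L' + 1) := by rw [← hL']
          rw [this, Nat.mul_add, Nat.mul_one, mul_comm L']
          omega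
        rw [e] at hi
        have h1 := ih t i ht hi
        subst hnt
        rw [K.P_last_block ht]
        simp only [Pi.single_eq_same]
        linarith

/-- upper bound for the distance from the end -/
theorem upper1 {i j : ℕ} (hij : i ≤ j) : ∀ n, n ≤ K.L ^ j → K.L ^ j - n ≤ K.L ^ i → ∀ c,
    |(Pi.single K.a0 (K.S j) : ι → ℤ) c - K.P j n c| ≤ K.S i := by
  induction hij with
  | refl =>
    intro n hn _ c
    have hr := K.reg i n hn
    by_cases hc : c = K.a0
    · subst hc
      rw [Pi.single_eq_same, abs_of_nonneg (by linarith [hr.le])]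
      linarith [hr.nonneg]
    · rw [Pi.single_eq_of_ne hc, zero_sub, abs_neg]
      exact hr.abs_le c
  | @step j h ih =>
    intro n hn hi c
    have hn : n ≤ K.L ^ (j+1) := hn
    have hi : K.L ^ (j+1) - n ≤ K.L ^ i := hi
    have hL := K.two_le
    have hp := K.Lpow_pos j
    have hij' : K.L ^ i ≤ K.L ^ j := Nat.pow_le_pow_right K.L_pos h
    have e0 : K.L ^ (j+1) = (K.L - 1) * K.L ^ j + K.L ^ j := by
      obtain ⟨L', hL'⟩ : ∃ L', K.L = L' + 1 := ⟨K.L - 1, by omega⟩
      rw [show K.L - 1 = L' by omega, pow_succ]
      calc K.L ^ j * K.L = K.L ^ j * (L' + 1) := by rw [← hL']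
        _ = L' * K.L ^ j + K.L ^ j := by ring
    obtain ⟨t, ht⟩ : ∃ t, n = (K.L - 1) * K.L ^ j + t := ⟨n - (K.L - 1) * K.L ^ j, by omega⟩
    have ht' : t ≤ K.L ^ j := by omega
    subst ht
    rw [K.P_last_block ht']
    have := ih t ht' (by omega) c
    by_cases hc : c = K.a0
    · subst hc
      simp only [Pi.single_eq_same] at this ⊢
      rw [show K.S (j+1) - (K.S (j+1) - K.S j + K.P j t K.a0) = K.S j - K.P j t K.a0 by ring]
      exact this
    · simp only [Pi.single_eq_of_ne hc] at this ⊢
      rw [zero_add]; exact this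

theorem upper0 {j n i : ℕ} (hij : i ≤ j) (hn : n ≤ K.L ^ i) (c : ι) : |K.P j n c| ≤ K.S i := by
  rw [K.P_consist hij hn]
  exact (K.reg i n hn).abs_le c

/-- differences inside one block -/
theorem B_sub (j q : ℕ) (u v : ι → ℤ) (c : ι) : K.B j q u c - K.B j q v c =
    K.sg j q * (u (Equiv.swap K.a0 (K.ax j q) c) - v (Equiv.swap K.a0 (K.ax j q) c)) := by
  simp only [B, T]; ring

theorem B_abs_sub (j q : ℕ) (u v : ι → ℤ) (c : ι) : |K.B j q u c - K.B j q v c| =
    |u (Equiv.swap K.a0 (K.ax j q) c) - v (Equiv.swap K.a0 (K.ax j q) c)| := by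
  rw [B_sub, abs_mul]
  rcases (K.good j).sgn q with h | h <;> rw [h] <;> simp

/-- splitting a pair of times at level `j + 1` -/
theorem pair {j n m : ℕ} (hnm : n < m) (hm : m ≤ K.L ^ (j+1)) :
    ∃ q t q' t', q < K.L ∧ q' < K.L ∧ t ≤ K.L ^ j ∧ t' ≤ K.L ^ j ∧ n = q * K.L ^ j + t ∧
      m = q' * K.L ^ j + t' ∧ q ≤ q' := by
  have hp := K.Lpow_pos j
  have hL := K.L_pos
  obtain ⟨q', hq', t', ht', hm'⟩ := K.decomp (j := j) hm
  have hn : n < K.L ^ (j+1) := by omega
  refine ⟨n / K.L ^ j, n % K.L ^ j, q', t', ?_, hq', (Nat.mod_lt _ hp).le, ht', ?_, hm', ?_⟩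
  · rw [Nat.div_lt_iff_lt_mul hp, mul_comm, ← pow_succ]; exact hn
  · rw [mul_comm]; exact (Nat.div_add_mod n _).symm
  · by_contra h
    push Not at h
    have h1 := Nat.div_mul_le_self n (K.L ^ j)
    have h2 : (q' + 1) * K.L ^ j ≤ n / K.L ^ j * K.L ^ j := Nat.mul_le_mul_right _ h
    rw [Nat.succ_mul] at h2
    omega

/-- the two blocks around an inner vertex -/
theorem split_left {j q t : ℕ} (hq : q < K.L) (c : ι) :
    K.B j q (K.P j t) c = K.S j * K.x j (q+1) c -
      T K.a0 (K.ax j q) (K.sg j q) (Pi.single K.a0 (K.S j) - K.P j t) c := by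
  have := congrFun (K.B_end (j := j) hq) c
  simp only [B] at this ⊢
  rw [← this]
  simp only [T, Pi.sub_apply]
  ring

/-- upper bound for the distances -/
theorem upper (j : ℕ) : ∀ n m i, n < m → m ≤ K.L ^ j → m - n ≤ K.L ^ i → ∀ c,
    |K.P j m c - K.P j n c| ≤ 2 * K.S i := by
  induction j with
  | zero =>
    intro n m i hnm hm hi c
    have h1 := (K.reg 0 m hm).abs_le c
    have h2 := (K.reg 0 n (by omega)).abs_le c
    have h3 := K.S_mono (Nat.zero_le i)
    have := abs_sub (K.P 0 m c) (K.P 0 n c)
    linarith
  | succ j ih =>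
    intro n m i hnm hm hi c
    rcases Nat.lt_or_ge j i with hji | hji
    · have h1 := (K.reg (j+1) m hm).abs_le c
      have h2 := (K.reg (j+1) n (by omega)).abs_le c
      have h3 := K.S_mono (show j + 1 ≤ i from hji)
      have := abs_sub (K.P (j+1) m c) (K.P (j+1) n c)
      linarith
    · obtain ⟨q, t, q', t', hq, hq', ht, ht', hn', hm', hqq⟩ := K.pair hnm hm
      have hpi : K.L ^ i ≤ K.L ^ j := Nat.pow_le_pow_right K.L_pos hji
      have hp := K.Lpow_pos j
      -- same block, with the same quotient
      have same : ∀ (q t t' : ℕ), q < K.L → t ≤ K.L ^ j → t' ≤ K.L ^ j →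
          n = q * K.L ^ j + t → m = q * K.L ^ j + t' →
          |K.P (j+1) m c - K.P (j+1) n c| ≤ 2 * K.S i := by
        intro q t t' hq ht ht' hn' hm'
        rw [hn', hm', K.P_block j q t hq ht, K.P_block j q t' hq ht', B_abs_sub]
        exact ih t t' i (by omega) ht' (by omega) _
      rcases Nat.lt_or_ge q q' with h | h
      · rcases Nat.lt_or_ge (q + 1) q' with h2 | h2
        · -- far blocks: only possible if they touch in time
          have e1 : (q + 2) * K.L ^ j ≤ q' * K.L ^ j := Nat.mul_le_mul_right _ h2
          rw [Nat.add_mul] at e1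
          have e2 : t = K.L ^ j := by omega
          have e3 : t' = 0 := by omega
          have e4 : q' * K.L ^ j = q * K.L ^ j + 2 * K.L ^ j := by omega
          have e5 : q' = q + 2 := by
            have : q' * K.L ^ j = (q + 2) * K.L ^ j := by rw [Nat.add_mul]; exact e4
            exact Nat.eq_of_mul_eq_mul_right hp this
          subst e5
          refine same (q+1) 0 (K.L ^ j) (by omega) (by omega) le_rfl ?_ ?_
          · rw [hn', e2]; ring
          · rw [hm', e3]; ring
        · have hq1 : q' = q + 1 := by omega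
          subst hq1
          rw [Nat.add_mul] at hm'
          have u1 := K.upper1 hji t ht (by omega)
          have u2 := fun c => K.upper0 hji (n := t') (show t' ≤ K.L ^ i by omega) c
          rw [hn', show m = (q+1) * K.L ^ j + t' by rw [Nat.add_mul]; exact hm',
            K.P_block j q t hq ht, K.P_block j (q+1) t' hq' ht', K.split_left hq]
          simp only [B]
          have k1 : |T K.a0 (K.ax j q) (K.sg j q) (Pi.single K.a0 (K.S j) - K.P j t) c| ≤ K.S i := by
            simp only [T, abs_mul, Pi.sub_apply]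
            have := u1 (Equiv.swap K.a0 (K.ax j q) c)
            rcases (K.good j).sgn q with h | h <;> rw [h] <;> simpa using this
          have k2 : |T K.a0 (K.ax j (q+1)) (K.sg j (q+1)) (K.P j t') c| ≤ K.S i := by
            simp only [T, abs_mul]
            have := u2 (Equiv.swap K.a0 (K.ax j (q+1)) c)
            rcases (K.good j).sgn (q+1) with h | h <;> rw [h] <;> simpa using this
          rw [show K.S j * K.x j (q + 1) c + T K.a0 (K.ax j (q + 1)) (K.sg j (q + 1)) (K.P j t') c -
            (K.S j * K.x j (q + 1) c - T K.a0 (K.ax j q) (K.sg j q)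
              (Pi.single K.a0 (K.S j) - K.P j t) c) =
            T K.a0 (K.ax j (q + 1)) (K.sg j (q + 1)) (K.P j t') c +
              T K.a0 (K.ax j q) (K.sg j q) (Pi.single K.a0 (K.S j) - K.P j t) c by ring]
          have := abs_add_le (T K.a0 (K.ax j (q + 1)) (K.sg j (q + 1)) (K.P j t') c)
            (T K.a0 (K.ax j q) (K.sg j q) (Pi.single K.a0 (K.S j) - K.P j t) c)
          linarith
      · have : q' = q := by omega
        subst this
        exact same q' t t' hq ht ht' hn' hm'

/-- lower bound for the distances -/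
theorem lower (hr : ∀ j, K.r j ≤ K.L) (j : ℕ) : ∀ n m i, n < m → m ≤ K.L ^ j →
    K.L ^ i ≤ m - n → ∃ c, K.S i ≤ 2 * K.L * |K.P j m c - K.P j n c| := by
  have hL := K.two_le
  have hL' : (2:ℤ) ≤ K.L := by exact_mod_cast hL
  have hSL : ∀ j, K.S (j+1) ≤ K.S j * K.L := by
    intro j
    rw [S_succ]
    exact mul_le_mul_of_nonneg_left (by exact_mod_cast hr j) (K.S_pos j).le
  induction j with
  | zero =>
    intro n m i hnm hm hi
    simp only [pow_zero] at hm
    have hn0 : n = 0 := by omega
    have hm1 : m = 1 := by omega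
    subst hn0; subst hm1
    have : i = 0 := by
      by_contra h
      have := Nat.one_lt_pow h (show 1 < K.L from K.two_le)
      omega
    subst this
    refine ⟨K.a0, ?_⟩
    simp [P, S_zero]
    linarith
  | succ j ih =>
    intro n m i hnm hm hi
    have hij : i ≤ j + 1 := by
      by_contra h
      push Not at h
      have := Nat.pow_lt_pow_right (show 1 < K.L from K.two_le) h
      omega
    obtain ⟨q, t, q', t', hq, hq', ht, ht', hn', hm', hqq⟩ := K.pair hnm hm
    rcases Nat.lt_or_ge q q' with h | h
    · rcases Nat.lt_or_ge (q + 1) q' with h2 | h2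
      · -- non-adjacent blocks
        have hg := K.good j
        obtain ⟨c, hc⟩ := nonadj (a0 := K.a0) (a := K.ax j q') (b := K.ax j q)
          (hg.sgn q') (hg.sgn q) (K.S_pos j) (K.x j q') (K.x j q) (K.P j t') (K.P j t)
          (K.reg j t' ht') (K.reg j t ht)
          (by intro e; have := hg.inj _ _ (by omega) (by omega) e; omega)
          (by rw [← hg.step q' hq']; intro e; have := hg.inj _ _ (by omega) (by omega) e; omega)
          (by rw [← hg.step q hq]; intro e; have := hg.inj _ _ (by omega) (by omega) e; omega)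
          (by rw [← hg.step q hq, ← hg.step q' hq']; intro e
              have := hg.inj _ _ (by omega) (by omega) e; omega)
        refine ⟨c, ?_⟩
        rw [hn', hm', K.P_block j q t hq ht, K.P_block j q' t' hq' ht']
        have e1 := hSL j
        have e2 := K.S_mono hij
        simp only [B]
        have e3 := mul_le_mul_of_nonneg_right hc (show (0:ℤ) ≤ K.L by linarith)
        linarith
      · -- adjacent blocks
        have hq1 : q' = q + 1 := by omega
        subst hq1
        have hg := K.good j
        rw [Nat.add_mul] at hm'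
        have hR := K.reg j t ht
        have hR' := K.reg j t' ht'
        set u : ι → ℤ := Pi.single K.a0 (K.S j) - K.P j t with hu
        have hu0 : u K.a0 = K.S j - K.P j t K.a0 := by simp [hu]
        have huc : ∀ c, c ≠ K.a0 → u c = - K.P j t c := by
          intro c hc; simp [hu, Pi.single_eq_of_ne hc]
        have hne : ¬ (K.ax j q = K.ax j (q+1) ∧ -K.sg j q = K.sg j (q+1)) := by
          rintro ⟨e1, e2⟩
          have s1 := hg.step q hq
          have s2 := hg.step (q+1) hq'
          rw [s1, ← e1, ← e2] at s2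
          have s3 : K.x j (q + 1 + 1) = K.x j q := by
            rw [s2]
            funext c
            by_cases hc : c = K.ax j q
            · subst hc; simp
            · simp [Pi.single_eq_of_ne hc]
          have := hg.inj _ _ (by omega) (by omega) s3
          omega
        have hsg' : -K.sg j q = 1 ∨ -K.sg j q = -1 := by
          rcases hg.sgn q with h | h <;> rw [h] <;> simp
        obtain ⟨c, hc1, hc2⟩ := adj (a0 := K.a0) (a := K.ax j q) (b := K.ax j (q+1))
          hsg' (hg.sgn (q+1)) hne u (K.P j t') (by rw [hu0]; linarith [hR.le]) hR'.nonneg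
          (by intro c hc; rw [huc c hc, hu0, abs_neg]; exact hR.cone' c hc)
          (by intro c hc; exact hR'.cone c hc)
        have key : |K.P (j+1) m c - K.P (j+1) n c| =
            |T K.a0 (K.ax j q) (-K.sg j q) u c -
              T K.a0 (K.ax j (q+1)) (K.sg j (q+1)) (K.P j t') c| := by
          rw [hn', show m = (q+1) * K.L ^ j + t' by rw [Nat.add_mul]; exact hm',
            K.P_block j q t hq ht, K.P_block j (q+1) t' hq' ht', K.split_left hq]
          rw [← abs_neg]
          congr 1
          simp only [B, T]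
          ring
        -- one of the two parts is long
        cases i with
        | zero =>
          -- the distance is at least one coordinate of size one
          refine ⟨c, ?_⟩
          rw [key, S_zero]
          simp only [pow_zero] at hi
          have hpos : 1 ≤ u K.a0 ∨ 1 ≤ K.P j t' K.a0 := by
            rcases Nat.eq_zero_or_pos t' with h0 | h0
            · left
              have : K.L ^ 0 ≤ K.L ^ j - t := by rw [pow_zero]; omega
              have := K.lower1 j t 0 ht this
              rw [S_zero] at this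
              rw [hu0]; exact this
            · right
              have := K.lower0 j t' 0 ht' (by rw [pow_zero]; exact h0)
              rw [S_zero] at this; exact this
          have hge : 3 ≤ 4 * |T K.a0 (K.ax j q) (-K.sg j q) u c -
              T K.a0 (K.ax j (q+1)) (K.sg j (q+1)) (K.P j t') c| := by
            rcases hpos with h | h
            · linarith
            · linarith
          nlinarith [abs_nonneg (T K.a0 (K.ax j q) (-K.sg j q) u c -
              T K.a0 (K.ax j (q+1)) (K.sg j (q+1)) (K.P j t') c)]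
        | succ i =>
          refine ⟨c, ?_⟩
          rw [key]
          have hlong : K.L ^ i ≤ K.L ^ j - t ∨ K.L ^ i ≤ t' := by
            by_contra hcon
            push Not at hcon
            have : K.L ^ (i+1) = K.L ^ i * K.L := pow_succ _ _
            have : K.L ^ i * 2 ≤ K.L ^ i * K.L := Nat.mul_le_mul_left _ hL
            omega
          have hge : 3 * K.S i ≤ 4 * |T K.a0 (K.ax j q) (-K.sg j q) u c -
              T K.a0 (K.ax j (q+1)) (K.sg j (q+1)) (K.P j t') c| := by
            rcases hlong with h | h
            · have := K.lower1 j t i ht h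
              rw [hu0] at hc1
              linarith
            · have := K.lower0 j t' i ht' h
              linarith
          have e1 := hSL i
          have e2 := mul_le_mul_of_nonneg_right hge (show (0:ℤ) ≤ K.L by linarith)
          have e3 := mul_nonneg (K.S_pos i).le (show (0:ℤ) ≤ K.L by linarith)
          nlinarith [abs_nonneg (T K.a0 (K.ax j q) (-K.sg j q) u c -
              T K.a0 (K.ax j (q+1)) (K.sg j (q+1)) (K.P j t') c)]
    · have hqe : q' = q := by omega
      subst hqe
      obtain ⟨c, hc⟩ := ih t t' i (by omega) ht' (by omega)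
      refine ⟨Equiv.swap K.a0 (K.ax j q') c, ?_⟩
      rw [hn', hm', K.P_block j q' t hq ht, K.P_block j q' t' hq' ht', B_abs_sub]
      simpa using hc

end Sys

end Q184.Rate
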