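import Pool.Agent.Q184.Rate.Rec

/-!
Sufficiency of the criterion: construction of the sequence.
-/

namespace Q184.Rate

open Real

/-- choice of the side of the cube -/
theorem exists_side {k : ℕ} (hk : 2 ≤ k) {α c : ℝ} (hα : 1 / (k:ℝ) < α) (hc : 0 < c) :
    ∃ w : ℕ, 0 < w ∧ Even w ∧
      ((9 * w + 9 : ℕ) : ℝ) ≤ c * ((w ^ k + 8 * w + 9 : ℕ) : ℝ) ^ α := by
  have hk0 : (0:ℝ) < k := by positivity
  have hαk : 0 < k * α - 1 := by
    rw [div_lt_iff₀ hk0] at hα; linarith
  have hα0 : 0 < α := lt_trans (by positivity) hα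
  have ht := tendsto_rpow_atTop hαk
  obtain ⟨x0, hx0⟩ := (Filter.tendsto_atTop_atTop.mp ht) (18 / c)
  obtain ⟨w0, hw0⟩ := exists_nat_ge x0
  refine ⟨2 * (w0 + 1), by omega, even_two_mul _, ?_⟩
  set w := 2 * (w0 + 1) with hw
  have hw1 : (1:ℝ) ≤ w := by
    have : 1 ≤ w := by omega
    exact_mod_cast this
  have hxw : x0 ≤ (w:ℝ) := by
    have : (w0:ℝ) ≤ w := by
      have : w0 ≤ w := by omega
      exact_mod_cast this
    linarith
  have h1 := hx0 w hxw
  have h2 : (18:ℝ) * w ≤ c * (w:ℝ) ^ (k * α) := by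
    have e : (w:ℝ) ^ (k * α) = (w:ℝ) ^ (k * α - 1) * w := by
      rw [← Real.rpow_add_one (by linarith)]; ring_nf
    rw [e]
    rw [div_le_iff₀ hc] at h1
    nlinarith
  have h3 : (w:ℝ) ^ (k * α) ≤ ((w ^ k + 8 * w + 9 : ℕ) : ℝ) ^ α := by
    rw [Real.rpow_mul (by linarith), Real.rpow_natCast]
    apply Real.rpow_le_rpow (by positivity) _ hα0.le
    push_cast
    linarith
  have h4 : c * (w:ℝ) ^ (k * α) ≤ c * ((w ^ k + 8 * w + 9 : ℕ) : ℝ) ^ α :=
    mul_le_mul_of_nonneg_left h3 hc.le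
  have h5 : ((9 * w + 9 : ℕ) : ℝ) ≤ 18 * w := by push_cast; linarith
  linarith

/-- the sizes: multiply by `L` while the size is too small, by `r` when it is too big -/
noncomputable def size (L r : ℕ) (g : ℕ → ℝ) : ℕ → ℕ
  | 0 => 1
  | j+1 => open Classical in size L r g j * (if (size L r g j : ℝ) ≤ g j then L else r)

theorem size_pos {L r : ℕ} (hL : 0 < L) (hr : 0 < r) (g : ℕ → ℝ) (j : ℕ) : 0 < size L r g j := by
  induction j with
  | zero => simp [size]
  | succ j ih =>
    simp only [size]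
    split_ifs
    · exact Nat.mul_pos ih hL
    · exact Nat.mul_pos ih hr

/-- upper bound of the sizes -/
theorem size_upper {L r : ℕ} (hL : 0 < L) {g : ℕ → ℝ} {j0 : ℕ}
    (h0 : (size L r g j0 : ℝ) ≤ L * g j0)
    (hmono : ∀ j, j0 ≤ j → g j ≤ g (j+1)) (hgr : ∀ j, j0 ≤ j → r * g j ≤ g (j+1)) :
    ∀ j, j0 ≤ j → (size L r g j : ℝ) ≤ L * g j := by
  intro j hj
  have hL' : (0:ℝ) < L := by exact_mod_cast hL
  induction hj with
  | refl => exact h0
  | @step j hj ih =>
    have hj' : j0 ≤ j := hj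
    change (size L r g (j+1) : ℝ) ≤ L * g (j+1)
    simp only [size]
    split_ifs with h
    · push_cast
      have := hmono j hj'
      have h1 : (size L r g j : ℝ) * L ≤ g (j+1) * L :=
        mul_le_mul_of_nonneg_right (h.trans this) hL'.le
      linarith
    · push_cast
      have h1 : (size L r g j : ℝ) * r ≤ (L * g j) * r :=
        mul_le_mul_of_nonneg_right ih (by positivity)
      have h2 : L * (r * g j) ≤ L * g (j+1) := mul_le_mul_of_nonneg_left (hgr j hj') hL'.le
      linarith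

/-- lower bound of the sizes -/
theorem size_lower {L r : ℕ} (hL : 0 < L) (hr : 0 < r) {g : ℕ → ℝ} {j0 : ℕ}
    (h0 : g j0 ≤ size L r g j0) :
    ∀ j, j0 ≤ j → ∃ i, j0 ≤ i ∧ i ≤ j ∧ g i ≤ size L r g i ∧
      size L r g i * L ^ (j - i) ≤ L * size L r g j := by
  intro j hj
  induction hj with
  | refl => exact ⟨j0, le_rfl, le_rfl, h0, by simp; exact Nat.le_mul_of_pos_left _ hL⟩
  | @step j hj ih =>
    have hj' : j0 ≤ j := hj
    obtain ⟨i, hi0, hi, hgi, hs⟩ := ih
    change ∃ i, j0 ≤ i ∧ i ≤ j + 1 ∧ g i ≤ size L r g i ∧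
      size L r g i * L ^ (j + 1 - i) ≤ L * size L r g (j+1)
    by_cases h : (size L r g j : ℝ) ≤ g j
    · refine ⟨i, hi0, by omega, hgi, ?_⟩
      have e : size L r g (j+1) = size L r g j * L := by simp [size, h]
      rw [e, show j + 1 - i = (j - i) + 1 by omega, pow_succ]
      calc size L r g i * (L ^ (j - i) * L) = (size L r g i * L ^ (j - i)) * L := by ring
        _ ≤ (L * size L r g j) * L := Nat.mul_le_mul_right _ hs
        _ = L * (size L r g j * L) := by ring
    · refine ⟨j, hj', by omega, (not_le.mp h).le, ?_⟩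
      have e : size L r g (j+1) = size L r g j * r := by simp [size, h]
      rw [e, show j + 1 - j = 1 by omega, pow_one]
      calc size L r g j * L = L * (size L r g j * 1) := by ring
        _ ≤ L * (size L r g j * r) := Nat.mul_le_mul_left _ (Nat.mul_le_mul_left _ hr)

/-- the system built from the two paths -/
theorem exists_sys {ι : Type*} [DecidableEq ι] [Fintype ι] (a0 : ι) (w : ℕ) (hw : 0 < w)
    (he : Even w) (g : ℕ → ℝ) :
    ∃ K : Sys ι, K.a0 = a0 ∧ K.L = w ^ Fintype.card ι + 8 * w + 9 ∧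
      (∀ j, K.S j = (size (w ^ Fintype.card ι + 8 * w + 9) (9 * w + 9) g j : ℤ)) ∧
      (∀ j, K.r j = w ^ Fintype.card ι + 8 * w + 9 ∨ K.r j = 9 * w + 9) := by
  classical
  set L := w ^ Fintype.card ι + 8 * w + 9 with hL
  set r := 9 * w + 9 with hr
  obtain ⟨x, ax, sg, hg⟩ := exists_comb a0 w hw he
  let cond : ℕ → Prop := fun j => (size L r g j : ℝ) ≤ g j
  let K : Sys ι :=
    { a0 := a0
      L := L
      r := fun j => if cond j then L else r
      x := fun j => if cond j then (fun q => Pi.single a0 (q:ℤ)) else x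
      ax := fun j => if cond j then (fun _ => a0) else ax
      sg := fun j => if cond j then (fun _ => 1) else sg
      good := by
        intro j
        by_cases h : cond j
        · simp only [h, if_true]
          exact good_straight a0 L (by omega)
        · simp only [h, if_false]
          exact hg }
  refine ⟨K, rfl, rfl, ?_, ?_⟩
  · intro j
    induction j with
    | zero => simp [Sys.S_zero, size]
    | succ j ih =>
      rw [Sys.S_succ, ih]
      change _ * ((if cond j then L else r : ℕ) : ℤ) = _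
      simp only [size, cond]
      split_ifs <;> push_cast <;> ring
  · intro j
    change (if cond j then L else r) = _ ∨ (if cond j then L else r) = _
    by_cases h : cond j <;> simp [h]

namespace Sys

variable {ι : Type*} [DecidableEq ι] (K : Sys ι)

/-- the infinite path -/
def Q (n : ℕ) : ι → ℤ := K.P n n

theorem le_pow_self (n : ℕ) : n ≤ K.L ^ n := (Nat.lt_pow_self K.two_le).le

theorem Q_eq {j n : ℕ} (h : n ≤ K.L ^ j) : K.Q n = K.P j n := by
  unfold Q
  rw [← K.P_consist (le_max_left j n) h, ← K.P_consist (le_max_right j n) (K.le_pow_self n)]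

theorem Q_zero : K.Q 0 = 0 := K.P_zero_right 0

theorem Q_upper {n m i : ℕ} (hnm : n < m) (h : m - n ≤ K.L ^ i) (c : ι) :
    |K.Q m c - K.Q n c| ≤ 2 * K.S i := by
  have h1 := K.le_pow_self m
  rw [K.Q_eq h1, K.Q_eq (n := n) (show n ≤ K.L ^ m by omega)]
  exact K.upper m n m i hnm h1 h c

theorem Q_abs {n i : ℕ} (h : n ≤ K.L ^ i) (c : ι) : |K.Q n c| ≤ K.S i := by
  rw [K.Q_eq h]; exact (K.reg i n h).abs_le c

theorem Q_nonneg (n : ℕ) : 0 ≤ K.Q n K.a0 := (K.reg n n (K.le_pow_self n)).nonneg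

theorem Q_first {n i : ℕ} (h : K.L ^ i ≤ n) : K.S i ≤ K.Q n K.a0 :=
  K.lower0 n n i (K.le_pow_self n) h

theorem Q_lower (hr : ∀ j, K.r j ≤ K.L) {n m i : ℕ} (hnm : n < m) (h : K.L ^ i ≤ m - n) :
    ∃ c, K.S i ≤ 2 * K.L * |K.Q m c - K.Q n c| := by
  have h1 := K.le_pow_self m
  rw [K.Q_eq h1, K.Q_eq (n := n) (show n ≤ K.L ^ m by omega)]
  exact K.lower hr m n m i hnm h1 h

/-- the bi-infinite path -/
def R (n : ℤ) : ι → ℤ := fun c => (if 0 ≤ n then 1 else -1) * K.Q n.natAbs c

theorem R_upper {m n : ℤ} {i : ℕ} (h : (n - m).natAbs ≤ K.L ^ i) (c : ι) :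
    |K.R n c - K.R m c| ≤ 2 * K.S i := by
  have hS := K.S_pos i
  unfold R
  by_cases hn : 0 ≤ n <;> by_cases hm : 0 ≤ m
  · simp only [hn, hm, if_true, one_mul]
    rcases lt_trichotomy m.natAbs n.natAbs with h1 | h1 | h1
    · exact K.Q_upper h1 (by omega) c
    · rw [h1]; simp; exact hS.le
    · rw [abs_sub_comm]; exact K.Q_upper h1 (by omega) c
  · simp only [hn, hm, if_true, if_false, one_mul]
    have h1 := K.Q_abs (n := n.natAbs) (i := i) (by omega) c
    have h2 := K.Q_abs (n := m.natAbs) (i := i) (by omega) c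
    have := abs_add_le (K.Q n.natAbs c) (K.Q m.natAbs c)
    rw [show K.Q n.natAbs c - -1 * K.Q m.natAbs c = K.Q n.natAbs c + K.Q m.natAbs c by ring]
    linarith
  · simp only [hn, hm, if_true, if_false, one_mul]
    have h1 := K.Q_abs (n := n.natAbs) (i := i) (by omega) c
    have h2 := K.Q_abs (n := m.natAbs) (i := i) (by omega) c
    have := abs_add_le (K.Q n.natAbs c) (K.Q m.natAbs c)
    rw [show -1 * K.Q n.natAbs c - K.Q m.natAbs c = -(K.Q n.natAbs c + K.Q m.natAbs c) by ring,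
      abs_neg]
    linarith
  · simp only [hn, hm, if_false]
    rw [show -1 * K.Q n.natAbs c - -1 * K.Q m.natAbs c = -(K.Q n.natAbs c - K.Q m.natAbs c) by
      ring, abs_neg]
    rcases lt_trichotomy m.natAbs n.natAbs with h1 | h1 | h1
    · exact K.Q_upper h1 (by omega) c
    · rw [h1]; simp; exact hS.le
    · rw [abs_sub_comm]; exact K.Q_upper h1 (by omega) c

theorem R_lower (hr : ∀ j, K.r j ≤ K.L) {m n : ℤ} {i : ℕ} (h : K.L ^ i ≤ (n - m).natAbs) :
    ∃ c, K.S i ≤ 2 * K.L * |K.R n c - K.R m c| := by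
  have hL := K.two_le
  have hL' : (2:ℤ) ≤ K.L := by exact_mod_cast hL
  have hp := K.Lpow_pos i
  -- opposite signs
  have opp : ∀ a b : ℕ, K.L ^ i ≤ a + b → K.S i ≤ 2 * K.L * |K.Q a K.a0 + K.Q b K.a0| := by
    intro a b hab
    have ha := K.Q_nonneg a
    have hb := K.Q_nonneg b
    rw [abs_of_nonneg (by linarith)]
    have big : K.S i ≤ K.L * K.Q a K.a0 ∨ K.S i ≤ K.L * K.Q b K.a0 := by
      cases i with
      | zero =>
        rw [pow_zero] at hab
        rw [S_zero]
        rcases Nat.eq_zero_or_pos a with h0 | h0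
        · right
          have := K.Q_first (n := b) (i := 0) (by rw [pow_zero]; omega)
          rw [S_zero] at this
          nlinarith
        · left
          have := K.Q_first (n := a) (i := 0) (by rw [pow_zero]; omega)
          rw [S_zero] at this
          nlinarith
      | succ i =>
        have hSL : K.S (i+1) ≤ K.S i * K.L := by
          rw [S_succ]
          exact mul_le_mul_of_nonneg_left (by exact_mod_cast hr i) (K.S_pos i).le
        have hlong : K.L ^ i ≤ a ∨ K.L ^ i ≤ b := by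
          by_contra hcon
          push Not at hcon
          have : K.L ^ (i+1) = K.L ^ i * K.L := pow_succ _ _
          have : K.L ^ i * 2 ≤ K.L ^ i * K.L := Nat.mul_le_mul_left _ hL
          omega
        rcases hlong with h | h
        · left
          have := K.Q_first h
          nlinarith
        · right
          have := K.Q_first h
          nlinarith
    rcases big with h | h
    · nlinarith [mul_nonneg (show (0:ℤ) ≤ K.L by linarith) hb]
    · nlinarith [mul_nonneg (show (0:ℤ) ≤ K.L by linarith) ha]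
  unfold R
  by_cases hn : 0 ≤ n <;> by_cases hm : 0 ≤ m
  · simp only [hn, hm, if_true, one_mul]
    rcases lt_trichotomy m.natAbs n.natAbs with h1 | h1 | h1
    · exact K.Q_lower hr h1 (by omega)
    · exfalso; omega
    · obtain ⟨c, hc⟩ := K.Q_lower hr h1 (i := i) (by omega)
      exact ⟨c, by rw [abs_sub_comm]; exact hc⟩
  · refine ⟨K.a0, ?_⟩
    simp only [hn, hm, if_true, if_false, one_mul]
    rw [show K.Q n.natAbs K.a0 - -1 * K.Q m.natAbs K.a0 = K.Q n.natAbs K.a0 + K.Q m.natAbs K.a0 by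
      ring]
    exact opp _ _ (by omega)
  · refine ⟨K.a0, ?_⟩
    simp only [hn, hm, if_true, if_false, one_mul]
    rw [show -1 * K.Q n.natAbs K.a0 - K.Q m.natAbs K.a0 =
      -(K.Q n.natAbs K.a0 + K.Q m.natAbs K.a0) by ring, abs_neg]
    exact opp _ _ (by omega)
  · simp only [hn, hm, if_false]
    rcases lt_trichotomy m.natAbs n.natAbs with h1 | h1 | h1
    · obtain ⟨c, hc⟩ := K.Q_lower hr h1 (i := i) (by omega)
      refine ⟨c, ?_⟩
      rw [show -1 * K.Q n.natAbs c - -1 * K.Q m.natAbs c = -(K.Q n.natAbs c - K.Q m.natAbs c) by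
        ring, abs_neg]
      exact hc
    · exfalso; omega
    · obtain ⟨c, hc⟩ := K.Q_lower hr h1 (i := i) (by omega)
      refine ⟨c, ?_⟩
      rw [show -1 * K.Q n.natAbs c - -1 * K.Q m.natAbs c = (K.Q m.natAbs c - K.Q n.natAbs c) by
        ring]
      exact hc

end Sys

theorem dist_le_of_coord {k : ℕ} (x y : EuclideanSpace ℝ (Fin k)) {D : ℝ} (hD : 0 ≤ D)
    (h : ∀ c, |x c - y c| ≤ D) : dist x y ≤ k * D := by
  rw [EuclideanSpace.dist_eq]
  apply Real.sqrt_le_iff.mpr
  refine ⟨by positivity, ?_⟩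
  calc ∑ i, dist (x i) (y i) ^ 2 ≤ ∑ _i : Fin k, D ^ 2 := by
        apply Finset.sum_le_sum
        intro i _
        rw [Real.dist_eq]
        exact pow_le_pow_left₀ (abs_nonneg _) (h i) 2
    _ = k * D ^ 2 := by simp
    _ ≤ (k * D) ^ 2 := by
        rw [mul_pow]
        apply mul_le_mul_of_nonneg_right _ (by positivity)
        rcases Nat.eq_zero_or_pos k with h | h
        · subst h; simp
        · have : (1:ℝ) ≤ k := by exact_mod_cast h
          nlinarith

theorem coord_le_dist {k : ℕ} (x y : EuclideanSpace ℝ (Fin k)) (c : Fin k) :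
    |x c - y c| ≤ dist x y := by
  rw [EuclideanSpace.dist_eq]
  apply Real.le_sqrt_of_sq_le
  have : |x c - y c| ^ 2 = dist (x c) (y c) ^ 2 := by rw [Real.dist_eq]
  rw [this]
  exact Finset.single_le_sum (f := fun i => dist (x i) (y i) ^ 2)
    (fun i _ => by positivity) (Finset.mem_univ c)

/-- sufficiency of the criterion in dimension at least two -/
theorem suff {k : ℕ} (hk : 2 ≤ k) (f : ℕ → ℝ) (hpos : ∀ n, 1 ≤ n → 0 < f n)
    (hmono : ∀ m n, 1 ≤ m → m ≤ n → f m ≤ f n) {α c C : ℝ} (hα : 1 / (k:ℝ) < α) (hc : 0 < c)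
    {N0 : ℕ} (h : ∀ N : ℕ, N0 ≤ N → ∀ M : ℕ, 1 ≤ M →
      c * (M:ℝ) ^ α * f N ≤ f (M * N) ∧ f (M * N) ≤ C * M * f N) :
    ∃ p : ℤ → EuclideanSpace ℝ (Fin k), ∃ A > 0, ∃ B > 0, ∃ N1 ≥ 1, ∀ m n : ℤ,
      N1 ≤ (n - m).natAbs →
        A * f (n - m).natAbs ≤ dist (p n) (p m) ∧ dist (p n) (p m) ≤ B * f (n - m).natAbs := by
  obtain ⟨w, hw, hwe, hwc⟩ := exists_side hk hα hc
  have : NeZero k := ⟨by omega⟩
  set L := w ^ k + 8 * w + 9 with hL
  set r := 9 * w + 9 with hr
  have hL2 : 2 ≤ L := by omega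
  have hLpos : 0 < L := by omega
  have hLp : ∀ j, 1 ≤ L ^ j := fun j => Nat.one_le_pow _ _ hLpos
  have hL0 : (0:ℝ) < L := by exact_mod_cast hLpos
  -- the starting level
  obtain ⟨j0, hj0⟩ : ∃ j0, N0 ≤ L ^ j0 := ⟨N0, (Nat.lt_pow_self hL2).le⟩
  have hf0 : 0 < f (L ^ j0) := hpos _ (hLp _)
  set κ : ℝ := (L:ℝ) ^ j0 / f (L ^ j0) with hκ
  have hκpos : 0 < κ := by positivity
  -- the target sizes
  let g : ℕ → ℝ := fun j => if j < j0 then (L:ℝ) ^ j else κ * f (L ^ j)
  have hg1 : ∀ j, j0 ≤ j → g j = κ * f (L ^ j) := by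
    intro j hj; simp [g, not_lt.mpr hj]
  have hsize0 : ∀ j, j ≤ j0 → size L r g j = L ^ j := by
    intro j
    induction j with
    | zero => intro _; simp [size]
    | succ j ih =>
      intro hj
      have e := ih (by omega)
      have : (size L r g j : ℝ) ≤ g j := by
        rw [e]; simp [g, show j < j0 by omega]
      simp only [size, this, if_true]
      rw [e, pow_succ]
  have hgj0 : g j0 = (L:ℝ) ^ j0 := by
    rw [hg1 j0 le_rfl, hκ]; field_simp
  have hge : ∀ j, j0 ≤ j → N0 ≤ L ^ j := fun j hj =>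
    hj0.trans (Nat.pow_le_pow_right hLpos hj)
  have hup := size_upper (r := r) hLpos (g := g) (j0 := j0)
    (by
      rw [hsize0 j0 le_rfl, hgj0]; push_cast
      have : (1:ℝ) ≤ L := by exact_mod_cast hLpos
      nlinarith [pow_pos hL0 j0])
    (by
      intro j hj
      rw [hg1 j hj, hg1 (j+1) (by omega)]
      apply mul_le_mul_of_nonneg_left _ hκpos.le
      apply hmono _ _ (hLp j)
      exact Nat.pow_le_pow_right hLpos (by omega))
    (by
      intro j hj
      rw [hg1 j hj, hg1 (j+1) (by omega)]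
      have h1 := (h (L ^ j) (hge j hj) L (by omega)).1
      rw [show L * L ^ j = L ^ (j+1) by rw [pow_succ]; ring] at h1
      have h2 : (r:ℝ) * f (L ^ j) ≤ c * (L:ℝ) ^ α * f (L ^ j) :=
        mul_le_mul_of_nonneg_right hwc (hpos _ (hLp j)).le
      have h3 := mul_le_mul_of_nonneg_left (h2.trans h1) hκpos.le
      linarith)
  have hlo := size_lower (r := r) hLpos (by omega) (g := g) (j0 := j0)
    (by rw [hsize0 j0 le_rfl, hgj0]; push_cast; exact le_rfl)
  have hC : 0 < C := by
    have h1 := (h (L ^ j0) hj0 1 le_rfl).2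
    rw [one_mul] at h1
    push_cast at h1
    by_contra hneg
    push Not at hneg
    nlinarith
  have hlo' : ∀ j, j0 ≤ j → κ * f (L ^ j) ≤ C * L * size L r g j := by
    intro j hj
    obtain ⟨i, hi0, hij, hgi, hs⟩ := hlo j hj
    rw [hg1 i hi0] at hgi
    have h1 := (h (L ^ i) (hge i hi0) (L ^ (j - i)) (hLp _)).2
    rw [← pow_add, show j - i + i = j by omega] at h1
    have h2 : (size L r g i : ℝ) * (L:ℝ) ^ (j - i) ≤ L * size L r g j := by exact_mod_cast hs
    have h3 : κ * f (L ^ j) ≤ C * (L:ℝ) ^ (j - i) * (κ * f (L ^ i)) := by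
      have := mul_le_mul_of_nonneg_left h1 hκpos.le
      push_cast at this
      linarith
    have h4 : C * (L:ℝ) ^ (j - i) * (κ * f (L ^ i)) ≤ C * (L:ℝ) ^ (j - i) * size L r g i :=
      mul_le_mul_of_nonneg_left hgi (by positivity)
    have h5 := mul_le_mul_of_nonneg_left h2 hC.le
    linarith
  obtain ⟨K, hKa, hKL, hKS, hKr⟩ := exists_sys (ι := Fin k) (0 : Fin k) w hw hwe g
  rw [Fintype.card_fin] at hKL hKS hKr
  rw [← hL] at hKL hKr
  rw [← hL, ← hr] at hKS
  rw [← hr] at hKr
  have hrL : r ≤ L := by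
    have : w ≤ w ^ k := Nat.le_self_pow (by omega) w
    omega
  have hKr' : ∀ j, K.r j ≤ K.L := by
    intro j
    rw [hKL]
    rcases hKr j with h | h <;> rw [h]
    exact hrL
  -- the sequence
  refine ⟨fun n => WithLp.toLp 2 (fun c => (K.R n c : ℝ)), κ / (2 * C * L ^ 3), by positivity,
    2 * k * L ^ 2 * κ, by positivity, L ^ j0, hLp j0, ?_⟩
  intro m n hmn
  set N := (n - m).natAbs with hN
  have hN1 : 1 ≤ N := le_trans (hLp j0) hmn
  -- the level
  obtain ⟨i, hi1, hi2⟩ : ∃ i, L ^ i ≤ N ∧ N < L ^ (i+1) :=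
    ⟨Nat.log L N, Nat.pow_log_le_self L (by omega), Nat.lt_pow_succ_log_self hL2 N⟩
  have hi0 : j0 ≤ i := by
    by_contra hcon
    push Not at hcon
    have := Nat.pow_le_pow_right hLpos (show i + 1 ≤ j0 from hcon)
    omega
  have hSi : (K.S (i+1) : ℝ) ≤ L * K.S i := by
    rw [Sys.S_succ]
    push_cast
    have h1 : (K.r i : ℝ) ≤ L := by
      rw [← hKL]; exact_mod_cast hKr' i
    have h2 : (0:ℝ) < K.S i := by exact_mod_cast K.S_pos i
    nlinarith
  have hup_i : (K.S i : ℝ) ≤ L * (κ * f (L ^ i)) := by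
    rw [← hg1 i hi0, hKS i]; push_cast; exact hup i hi0
  have hlo_i : κ * f (L ^ (i+1)) ≤ C * L * K.S (i+1) := by
    rw [hKS (i+1)]; push_cast; exact hlo' (i+1) (by omega)
  have hf1 : f N ≤ f (L ^ (i+1)) := hmono _ _ hN1 hi2.le
  have hf2 : f (L ^ i) ≤ f N := hmono _ _ (hLp i) hi1
  have hk0 : (0:ℝ) < k := by positivity
  constructor
  · obtain ⟨c', hc'⟩ := K.R_lower hKr' (m := m) (n := n) (i := i) (by rw [hKL]; exact hi1)
    have h1 := coord_le_dist (WithLp.toLp 2 (fun c => (K.R n c : ℝ)) : EuclideanSpace ℝ (Fin k))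
      (WithLp.toLp 2 (fun c => (K.R m c : ℝ))) c'
    simp only [] at h1
    have h2 : (K.S i : ℝ) ≤ 2 * L * |(K.R n c' : ℝ) - K.R m c'| := by
      rw [hKL] at hc'
      have : ((K.S i : ℤ) : ℝ) ≤ ((2 * (L:ℤ) * |K.R n c' - K.R m c'| : ℤ) : ℝ) := by
        exact_mod_cast hc'
      push_cast at this
      exact this
    have h3 : (K.S i : ℝ) ≤ 2 * L * dist
        (WithLp.toLp 2 (fun c => (K.R n c : ℝ)) : EuclideanSpace ℝ (Fin k))
        (WithLp.toLp 2 (fun c => (K.R m c : ℝ))) :=
      h2.trans (mul_le_mul_of_nonneg_left h1 (by positivity))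
    set d := dist (WithLp.toLp 2 (fun c => (K.R n c : ℝ)) : EuclideanSpace ℝ (Fin k))
        (WithLp.toLp 2 (fun c => (K.R m c : ℝ))) with hd
    rw [div_mul_eq_mul_div, div_le_iff₀ (by positivity)]
    calc κ * f N ≤ κ * f (L ^ (i+1)) := mul_le_mul_of_nonneg_left hf1 hκpos.le
      _ ≤ C * L * K.S (i+1) := hlo_i
      _ ≤ C * L * (L * K.S i) := mul_le_mul_of_nonneg_left hSi (by positivity)
      _ ≤ C * L * (L * (2 * L * d)) := by
          apply mul_le_mul_of_nonneg_left _ (by positivity)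
          exact mul_le_mul_of_nonneg_left h3 hL0.le
      _ = d * (2 * C * L ^ 3) := by ring
  · have h1 := dist_le_of_coord
      (WithLp.toLp 2 (fun c => (K.R n c : ℝ)) : EuclideanSpace ℝ (Fin k))
      (WithLp.toLp 2 (fun c => (K.R m c : ℝ))) (D := 2 * K.S (i+1))
      (by have : (0:ℝ) < K.S (i+1) := by exact_mod_cast K.S_pos (i+1)
          linarith)
      (by
        intro c'
        have := K.R_upper (m := m) (n := n) (i := i + 1) (by rw [hKL]; exact hi2.le) c'
        have h2 : ((|K.R n c' - K.R m c'| : ℤ) : ℝ) ≤ ((2 * K.S (i+1) : ℤ) : ℝ) := by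
          exact_mod_cast this
        push_cast at h2
        exact h2)
    calc dist (WithLp.toLp 2 (fun c => (K.R n c : ℝ)) : EuclideanSpace ℝ (Fin k))
          (WithLp.toLp 2 (fun c => (K.R m c : ℝ))) ≤ k * (2 * K.S (i+1)) := h1
      _ ≤ k * (2 * (L * K.S i)) := by
          apply mul_le_mul_of_nonneg_left _ hk0.le
          linarith
      _ ≤ k * (2 * (L * (L * (κ * f (L ^ i))))) := by
          apply mul_le_mul_of_nonneg_left _ hk0.le
          apply mul_le_mul_of_nonneg_left _ (by norm_num)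
          exact mul_le_mul_of_nonneg_left hup_i hL0.le
      _ ≤ k * (2 * (L * (L * (κ * f N)))) := by
          apply mul_le_mul_of_nonneg_left _ hk0.le
          apply mul_le_mul_of_nonneg_left _ (by norm_num)
          apply mul_le_mul_of_nonneg_left _ hL0.le
          apply mul_le_mul_of_nonneg_left _ hL0.le
          exact mul_le_mul_of_nonneg_left hf2 hκpos.le
      _ = 2 * k * L ^ 2 * κ * f N := by ring

end Q184.Rate
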